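import Mathlib

open Set Filter Topology Metric

namespace Pool.Agent.Results.MP_19acf5_gt.Full

universe u

/-- A subcontinuum: a nonempty compact connected subset. -/
def IsCont {Z : Type u} [TopologicalSpace Z] (S : Set Z) : Prop := IsCompact S ∧ IsConnected S

/-- `S` is an indecomposable continuum: a continuum which is not the union of two proper
subcontinua. -/
def Indec {Z : Type u} [TopologicalSpace Z] (S : Set Z) : Prop :=
  IsCont S ∧ ¬ ∃ A B : Set Z, IsCont A ∧ IsCont B ∧ A ⊂ S ∧ B ⊂ S ∧ A ∪ B = S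

/-- The Stone-Čech remainder `β Y - Y`. -/
def Remainder (Y : Type u) [TopologicalSpace Y] : Set (StoneCech Y) :=
  (range (stoneCechUnit : Y → StoneCech Y))ᶜ

/-- connected im kleinen at `p` -/
def Cik {X : Type u} [TopologicalSpace X] (p : X) : Prop :=
  ∀ U : Set X, IsOpen U → p ∈ U → ∃ C : Set X, IsConnected C ∧ C ⊆ U ∧ p ∈ interior C

theorem sep {X : Type u} [TopologicalSpace X] [T2Space X] {H T : Set X} (hH : IsCompact H)
    (hT : IsClosed T) {a : X} (ha : a ∈ H) (hd : Disjoint (connectedComponentIn H a) T) :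
    ∃ E, E ⊆ H ∧ IsClosed E ∧ IsClosed (H \ E) ∧ a ∈ E ∧ Disjoint E T := by
  haveI : CompactSpace H := isCompact_iff_compactSpace.1 hH
  have hT' : IsCompact ((↑) ⁻¹' T : Set H) := (hT.preimage continuous_subtype_val).isCompact
  have h1 : ((↑) ⁻¹' T : Set H) ∩ ⋂ s : {s : Set H // IsClopen s ∧ (⟨a, ha⟩ : H) ∈ s}, s = ∅ := by
    rw [← connectedComponent_eq_iInter_isClopen, eq_empty_iff_forall_notMem]
    rintro x ⟨hx, hx'⟩
    rw [connectedComponentIn_eq_image ha] at hd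
    exact disjoint_left.1 hd (mem_image_of_mem _ hx') hx
  obtain ⟨t, ht⟩ := hT'.elim_finite_subfamily_closed _ (fun s => s.2.1.isClosed) h1
  have hc : IsClopen (⋂ s ∈ t, (s : Set H)) := isClopen_biInter_finset fun s _ => s.2.1
  refine ⟨(↑) '' ⋂ s ∈ t, (s : Set H), Subtype.coe_image_subset _ _,
    hH.isClosed.isClosedMap_subtype_val _ hc.isClosed, ?_,
    ⟨⟨a, ha⟩, mem_iInter₂.2 fun s _ => s.2.2, rfl⟩, ?_⟩
  · have : H \ (↑) '' (⋂ s ∈ t, (s : Set H)) = (↑) '' (⋂ s ∈ t, (s : Set H))ᶜ := by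
      rw [image_compl_eq_range_diff_image Subtype.val_injective, Subtype.range_coe]
    rw [this]
    exact hH.isClosed.isClosedMap_subtype_val _ hc.compl.isClosed
  · rw [disjoint_left]
    rintro _ ⟨x, hx, rfl⟩ hxT
    exact (eq_empty_iff_forall_notMem.1 ht x) ⟨hxT, hx⟩

theorem sub_of_clopen {X : Type u} [TopologicalSpace X] {H E C : Set X} (hE : IsClosed E)
    (hE' : IsClosed (H \ E)) (hC : IsPreconnected C) (hCH : C ⊆ H) {a : X} (haC : a ∈ C)
    (haE : a ∈ E) : C ⊆ E := by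
  rcases isPreconnected_iff_subset_of_disjoint_closed.1 hC E (H \ E) hE hE'
    (fun x hx => by by_cases h : x ∈ E; exacts [Or.inl h, Or.inr ⟨hCH hx, h⟩])
    (by ext x; simp) with h | h
  · exact h
  · exact absurd haE (h haC).2

theorem decomp {Z : Type u} [TopologicalSpace Z] [T2Space Z] {R S V : Set Z} (hR : Indec R)
    (hS : IsCont S) (hSR : S ⊂ R) (hV : IsOpen V) (hne : (V ∩ R).Nonempty) (hVS : V ∩ R ⊆ S) :
    False := by
  obtain ⟨⟨hRc, hRn⟩, hdec⟩ := hR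
  apply hdec
  set D := closure (R \ S) with hD
  have hDR : D ⊆ R := closure_minimal diff_subset hRc.isClosed
  have hDc : IsCompact D := hRc.of_isClosed_subset isClosed_closure hDR
  have hDV : Disjoint D V := by
    apply Disjoint.closure_left _ hV
    rw [disjoint_left]
    exact fun x hx hxV => hx.2 (hVS ⟨hxV, hx.1⟩)
  obtain ⟨b, hbR, hbS⟩ := exists_of_ssubset hSR
  have hcov : S ∪ D = R := by
    apply Subset.antisymm (union_subset hSR.1 hDR)
    intro x hx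
    by_cases h : x ∈ S
    exacts [Or.inl h, Or.inr (subset_closure ⟨hx, h⟩)]
  by_cases hpc : IsPreconnected D
  · refine ⟨S, D, hS, ⟨hDc, ⟨b, subset_closure ⟨hbR, hbS⟩⟩, hpc⟩, hSR, ?_, hcov⟩
    obtain ⟨v, hv⟩ := hne
    exact (ssubset_iff_of_subset hDR).2 ⟨v, hv.2, disjoint_right.1 hDV hv.1⟩
  · rw [isPreconnected_iff_subset_of_fully_disjoint_closed isClosed_closure] at hpc
    push Not at hpc
    obtain ⟨P, Q, hP, hQ, hPQ, hd, h1, h2⟩ := hpc
    have key : ∀ P Q : Set Z, IsClosed P → IsClosed Q → D ⊆ P ∪ Q → Disjoint P Q → ¬ D ⊆ P →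
        IsCont (S ∪ D ∩ P) ∧ S ∪ D ∩ P ⊂ R := by
      intro P Q hP hQ hPQ hd h1
      have hc : IsCompact (S ∪ D ∩ P) := hS.1.union (hDc.inter_right hP)
      refine ⟨⟨hc, hS.2.nonempty.mono subset_union_left, ?_⟩, ?_⟩
      · have aux : ∀ u v : Set Z, IsClosed u → IsClosed v → S ∪ D ∩ P ⊆ u ∪ v → Disjoint u v →
            S ⊆ u → S ∪ D ∩ P ⊆ u := by
          intro u v hu hv huv hd' hSu
          have := (isPreconnected_iff_subset_of_fully_disjoint_closed hRc.isClosed).1 hRn.2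
            ((u ∩ (S ∪ D ∩ P)) ∪ Q) (v ∩ P) ((hu.inter hc.isClosed).union hQ) (hv.inter hP)
            (by
              intro x hx
              rw [← hcov] at hx
              rcases hx with hx | hx
              · exact Or.inl (Or.inl ⟨hSu hx, Or.inl hx⟩)
              · rcases hPQ hx with h | h
                · rcases huv (Or.inr ⟨hx, h⟩) with h' | h'
                  · exact Or.inl (Or.inl ⟨h', Or.inr ⟨hx, h⟩⟩)
                  · exact Or.inr ⟨h', h⟩
                · exact Or.inl (Or.inr h))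
            (by
              rw [disjoint_left]
              rintro x (hx | hx) hx'
              · exact disjoint_left.1 hd' hx.1 hx'.1
              · exact disjoint_left.1 hd hx'.2 hx)
          rcases this with h | h
          · rintro x (hx | hx)
            · exact hSu hx
            · rcases h (hDR hx.1) with h' | h'
              · exact h'.1
              · exact absurd h' (disjoint_left.1 hd hx.2)
          · obtain ⟨s, hs⟩ := hS.2.nonempty
            exact absurd (h (hSR.1 hs)).1 (disjoint_left.1 hd' (hSu hs))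
        rw [isPreconnected_iff_subset_of_fully_disjoint_closed hc.isClosed]
        intro u v hu hv huv hd'
        rcases (isPreconnected_iff_subset_of_fully_disjoint_closed hS.1.isClosed).1 hS.2.2 u v hu hv
          (subset_union_left.trans huv) hd' with h | h
        · exact Or.inl (aux u v hu hv huv hd' h)
        · exact Or.inr (aux v u hv hu (by rwa [union_comm v u]) hd'.symm h)
      · rw [ssubset_iff_of_subset (union_subset hSR.1 (inter_subset_left.trans hDR))]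
        by_contra hcon
        push Not at hcon
        apply h1
        apply closure_minimal _ hP
        intro x hx
        rcases hcon x hx.1 with h | h
        exacts [absurd h hx.2, h.2]
    obtain ⟨a1, a2⟩ := key P Q hP hQ hPQ hd h1
    obtain ⟨b1, b2⟩ := key Q P hQ hP (by rwa [union_comm]) hd.symm h2
    refine ⟨_, _, a1, b1, a2, b2, Subset.antisymm (union_subset a2.1 b2.1) fun x hx => ?_⟩
    rw [← hcov] at hx
    rcases hx with hx | hx
    · exact Or.inl (Or.inl hx)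
    · rcases hPQ hx with h | h
      exacts [Or.inl (Or.inr ⟨hx, h⟩), Or.inr (Or.inr ⟨hx, h⟩)]

theorem bump {X : Type u} [MetricSpace X] [CompactSpace X] [ConnectedSpace X] {p q y : X} {r : ℝ}
    (hq : r < dist q p) (hy : y ∈ closedBall p r) :
    ∃ z ∈ connectedComponentIn (closedBall p r) y, dist z p = r := by
  by_contra hcon
  push Not at hcon
  obtain ⟨E, hEH, hE, hE', hyE, hd⟩ := sep (T := sphere p r) isClosed_closedBall.isCompact
    isClosed_sphere hy (disjoint_left.2 fun z hz hz' => hcon z hz hz')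
  have : E = ball p r \ (closedBall p r \ E) := by
    ext x
    constructor
    · intro hx
      exact ⟨lt_of_le_of_ne (hEH hx) (disjoint_left.1 hd hx), fun h => h.2 hx⟩
    · intro hx
      by_contra h
      exact hx.2 ⟨ball_subset_closedBall hx.1, h⟩
  have hcl : IsClopen E := ⟨hE, this ▸ isOpen_ball.sdiff hE'⟩
  have := hEH (hcl.eq_univ ⟨y, hyE⟩ ▸ mem_univ q)
  exact absurd (mem_closedBall.1 this) (not_le.2 hq)

theorem sc_disjoint {Y : Type u} [TopologicalSpace Y] [NormalSpace Y] {A B : Set Y}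
    (hA : IsClosed A) (hB : IsClosed B) (hd : Disjoint A B) :
    Disjoint (closure (stoneCechUnit '' A)) (closure (stoneCechUnit '' B)) := by
  obtain ⟨f, hf0, hf1, hf⟩ := exists_continuous_zero_one_of_isClosed hA hB hd
  let g : Y → Icc (0 : ℝ) 1 := fun y => ⟨f y, hf y⟩
  have hg : Continuous g := f.continuous.subtype_mk _
  have hc : Continuous fun w => ((stoneCechExtend hg w : Icc (0 : ℝ) 1) : ℝ) :=
    continuous_subtype_val.comp (continuous_stoneCechExtend hg)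
  have h0 : closure (stoneCechUnit '' A) ⊆ {w | ((stoneCechExtend hg w : Icc (0 : ℝ) 1) : ℝ) = 0} := by
    apply closure_minimal _ (isClosed_eq hc continuous_const)
    rintro _ ⟨y, hy, rfl⟩
    rw [mem_setOf_eq, stoneCechExtend_stoneCechUnit]
    exact hf0 hy
  have h1 : closure (stoneCechUnit '' B) ⊆ {w | ((stoneCechExtend hg w : Icc (0 : ℝ) 1) : ℝ) = 1} := by
    apply closure_minimal _ (isClosed_eq hc continuous_const)
    rintro _ ⟨y, hy, rfl⟩
    rw [mem_setOf_eq, stoneCechExtend_stoneCechUnit]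
    exact hf1 hy
  rw [disjoint_left]
  intro w hw hw'
  have a := h0 hw
  have b := h1 hw'
  simp only [mem_setOf_eq] at a b
  linarith


theorem geom {X : Type u} [MetricSpace X] [CompactSpace X] [ConnectedSpace X] {p q : X}
    (hq : q ≠ p) (hn : ¬ Cik p) :
    ∃ (r : ℕ → ℝ) (A : Set X) (O K : ℕ → Set X) (x y : ℕ → X), Antitone r ∧
      Tendsto r atTop (𝓝 0) ∧ IsClosed A ∧ (∀ n, IsOpen (O n)) ∧ (∀ n, IsClosed (K n)) ∧
      (∀ n, x n ∈ O n ∧ O n ⊆ K n ∧ p ∉ K n ∧ O n ⊆ A ∧ y n ∉ A ∧ y n ≠ p) ∧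
      Tendsto x atTop (𝓝 p) ∧ Tendsto y atTop (𝓝 p) ∧
      ∀ k, ∀ F G : Set X, IsClosed F → IsClosed G → F ∪ G = univ →
        F ∩ G ∩ A ∩ closedBall p (r k) ⊆ {p} →
        (∀ᶠ n in atTop, O n ⊆ F) ∨ (∀ᶠ n in atTop, O n ⊆ G) := by
  unfold Cik at hn
  push Not at hn
  obtain ⟨U, hU, hpU, hnU⟩ := hn
  obtain ⟨ε, hε, hεU⟩ := Metric.nhds_basis_closedBall.mem_iff.1 (hU.mem_nhds hpU)
  have hqp : 0 < dist q p := dist_pos.2 hq
  set r0 := min ε (dist q p / 2) with hr0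
  have hr0p : 0 < r0 := by positivity
  let r : ℕ → ℝ := fun k => r0 * (1 / ((k : ℝ) + 1))
  have hrp : ∀ k, 0 < r k := fun k => by positivity
  have hanti : Antitone r := fun a b hab => by
    apply mul_le_mul_of_nonneg_left _ hr0p.le
    apply one_div_le_one_div_of_le (by positivity)
    have : (a : ℝ) ≤ b := by exact_mod_cast hab
    linarith
  have hr00 : r 0 = r0 := by simp [r]
  have hrle : ∀ k, r k ≤ r0 := fun k => hr00 ▸ hanti (Nat.zero_le k)
  have hrq : ∀ k, r k < dist q p := fun k => by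
    have := hrle k
    have := min_le_right ε (dist q p / 2)
    linarith
  have hrt : Tendsto r atTop (𝓝 0) := by
    have := (tendsto_one_div_add_atTop_nhds_zero_nat (𝕜 := ℝ)).const_mul r0
    rwa [mul_zero] at this
  set H := closedBall p r0 with hH
  have hpH : p ∈ H := mem_closedBall_self hr0p.le
  have hHc : IsCompact H := isClosed_closedBall.isCompact
  have hK := hnU (connectedComponentIn H p) (isConnected_connectedComponentIn_iff.2 hpH)
    ((connectedComponentIn_subset _ _).trans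
      ((closedBall_subset_closedBall (min_le_left _ _)).trans hεU))
  have step : ∀ (i : ℕ) (G : {G : Set X // IsClosed G ∧ IsClosed (H \ G) ∧ p ∉ G}),
      ∃ x E, E ⊆ H ∧ IsClosed E ∧ IsClosed (H \ E) ∧ x ∈ E ∧ p ∉ E ∧ Disjoint E G.1 ∧
        dist x p < r i := by
    rintro i ⟨G, hG, hG', hpG⟩
    have : ¬ (ball p (r i) \ G ⊆ connectedComponentIn H p) := fun h =>
      hK (mem_interior.2 ⟨_, h, isOpen_ball.sdiff hG, mem_ball_self (hrp i), hpG⟩)
    obtain ⟨x, ⟨hx1, hx2⟩, hx3⟩ := not_subset.1 this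
    have hxH : x ∈ H := (closedBall_subset_closedBall (hrle i)) (ball_subset_closedBall hx1)
    obtain ⟨E, h1, h2, h3, h4, h5⟩ := sep (T := G ∪ {p}) hHc (hG.union isClosed_singleton) hxH (by
      rw [disjoint_left]
      rintro z hz (hzG | hzp)
      · exact hx2 (sub_of_clopen hG hG' isPreconnected_connectedComponentIn
          (connectedComponentIn_subset _ _) hz hzG (mem_connectedComponentIn hxH))
      · rw [mem_singleton_iff.1 hzp] at hz
        apply hx3
        rw [← connectedComponentIn_eq hz]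
        exact mem_connectedComponentIn hxH)
    exact ⟨x, E, h1, h2, h3, h4, disjoint_right.1 h5 (Or.inr rfl),
      h5.mono_right subset_union_left, hx1⟩
  choose xf Ef hEH hE hE' hxE hpE hEd hxr using step
  let G : ℕ → {G : Set X // IsClosed G ∧ IsClosed (H \ G) ∧ p ∉ G} := fun n =>
    Nat.rec ⟨∅, isClosed_empty, by simpa using hHc.isClosed, notMem_empty p⟩
      (fun i g => ⟨g.1 ∪ Ef i g, g.2.1.union (hE i g), by
        rw [← diff_inter_diff]; exact g.2.2.1.inter (hE' i g),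
        fun h => h.elim g.2.2.2 (hpE i g)⟩) n
  let E : ℕ → Set X := fun i => Ef i (G i)
  let x : ℕ → X := fun i => xf i (G i)
  have hGs : ∀ i, (G (i + 1)).1 = (G i).1 ∪ E i := fun i => rfl
  have hGmono : Monotone fun i => (G i).1 :=
    monotone_nat_of_le_succ fun i => by rw [hGs]; exact subset_union_left
  have hEE : ∀ i j, i ≠ j → Disjoint (E i) (E j) := by
    have : ∀ i j, i < j → Disjoint (E j) (E i) := fun i j hij =>
      (hEd j (G j)).mono_right ((subset_union_right.trans (hGs i).ge).trans (hGmono hij))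
    intro i j hij
    rcases lt_or_gt_of_ne hij with h | h
    exacts [(this i j h).symm, this j i h]
  have hxt : Tendsto x atTop (𝓝 p) := tendsto_iff_dist_tendsto_zero.2
    (squeeze_zero (fun _ => dist_nonneg) (fun n => (hxr n (G n)).le) hrt)
  have hxb : ∀ n k, k ≤ n → x n ∈ ball p (r k) := fun n k h =>
    lt_of_lt_of_le (hxr n (G n)) (hanti h)
  let C : ℕ → X → Set X := fun k y => connectedComponentIn (closedBall p (r k)) y
  have hz : ∀ n k, ∃ z, k ≤ n → z ∈ C k (x n) ∧ dist z p = r k := by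
    intro n k
    by_cases h : k ≤ n
    · obtain ⟨z, h1, h2⟩ := bump (hrq k) (ball_subset_closedBall (hxb n k h))
      exact ⟨z, fun _ => ⟨h1, h2⟩⟩
    · exact ⟨p, fun h' => absurd h' h⟩
  choose z hz using hz
  have hO : ∀ n k, ∃ O, IsOpen O ∧ x n ∈ O ∧ (k ≤ n → O ⊆ closedBall p (r k) ∧
      ∀ y ∈ O, C k y ⊆ thickening (1 / ((n : ℝ) + 1)) (C k (x n))) := by
    intro n k
    by_cases h : k ≤ n
    · have hxk := ball_subset_closedBall (hxb n k h)
      obtain ⟨D, h1, h2, h3, h4, h5⟩ := sep (T := (thickening (1 / ((n : ℝ) + 1)) (C k (x n)))ᶜ)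
        isClosed_closedBall.isCompact isOpen_thickening.isClosed_compl hxk
        (disjoint_compl_right_iff_subset.2 (self_subset_thickening (by positivity) _))
      refine ⟨ball p (r k) \ (closedBall p (r k) \ D), isOpen_ball.sdiff h3,
        ⟨hxb n k h, fun h' => h'.2 h4⟩, fun _ => ⟨fun y hy => ball_subset_closedBall hy.1,
          fun y hy => ?_⟩⟩
      have hyk := ball_subset_closedBall hy.1
      have hyD : y ∈ D := by
        by_contra h'
        exact hy.2 ⟨hyk, h'⟩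
      exact (sub_of_clopen h2 h3 isPreconnected_connectedComponentIn
        (connectedComponentIn_subset _ _) (mem_connectedComponentIn hyk) hyD).trans
        (disjoint_compl_right_iff_subset.1 h5)
    · exact ⟨univ, isOpen_univ, trivial, fun h' => absurd h' h⟩
  choose O1 hO1 hxO1 hO1p using hO
  let O0 : ℕ → Set X := fun n => ball p r0 \ (H \ E n)
  have hO0 : ∀ n, IsOpen (O0 n) := fun n => isOpen_ball.sdiff (hE' n (G n))
  have hO0E : ∀ n, O0 n ⊆ E n := fun n y hy => by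
    by_contra h'
    exact hy.2 ⟨ball_subset_closedBall hy.1, h'⟩
  have hxO0 : ∀ n, x n ∈ O0 n := fun n =>
    ⟨hr00 ▸ hxb n 0 (Nat.zero_le _), fun h => h.2 (hxE n (G n))⟩
  let O : ℕ → Set X := fun n => O0 n ∩ ⋂ k ∈ Finset.range (n + 1), O1 n k
  have hOo : ∀ n, IsOpen (O n) := fun n =>
    (hO0 n).inter (isOpen_biInter_finset fun k _ => hO1 n k)
  have hxO : ∀ n, x n ∈ O n := fun n => ⟨hxO0 n, mem_iInter₂.2 fun k _ => hxO1 n k⟩
  obtain ⟨zl, -, φ, hφ, hzt⟩ := (isCompact_univ (X := ℕ → X)).tendsto_subseq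
    (x := fun n k => z (2 * n) k) (fun _ => mem_univ _)
  have hφn : ∀ n, n ≤ 2 * φ n := fun n => by have := hφ.id_le n; simp only [id] at this; omega
  have hψ : Tendsto (fun n => 2 * φ n) atTop atTop := tendsto_atTop_mono hφn tendsto_id
  let A := closure (⋃ n, E (2 * φ n))
  have hEA : ∀ n, E (2 * φ n) ⊆ A := fun n =>
    (subset_iUnion (fun n => E (2 * φ n)) n).trans subset_closure
  refine ⟨r, A, fun n => O (2 * φ n), fun n => E (2 * φ n), fun n => x (2 * φ n),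
    fun n => x (2 * n + 1), hanti, hrt, isClosed_closure, fun n => hOo _, fun n => hE _ _,
    fun n => ⟨hxO _, inter_subset_left.trans (hO0E _), hpE _ _,
      (inter_subset_left.trans (hO0E _)).trans (hEA n), ?_, ?_⟩, hxt.comp hψ,
    hxt.comp (tendsto_atTop_mono (fun n => by simp only [id]; omega) tendsto_id), ?_⟩
  · have : Disjoint A (O0 (2 * n + 1)) := by
      apply Disjoint.closure_left _ (hO0 _)
      exact disjoint_iUnion_left.2 fun m => (hEE _ _ (by omega)).mono_right (hO0E _)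
    exact disjoint_right.1 this (hxO0 _)
  · intro h
    have h1 : x (2 * n + 1) ∈ E (2 * n + 1) := hxE (2 * n + 1) (G (2 * n + 1))
    have h2 : x (2 * n + 1) = p := h
    rw [h2] at h1
    exact hpE _ _ h1
  intro k
  have hzk : Tendsto (fun n => z (2 * φ n) k) atTop (𝓝 (zl k)) :=
    ((continuous_apply k).tendsto zl).comp hzt
  have hCE : ∀ n, k ≤ n → ∀ y ∈ O n, C k y ⊆ E n := by
    intro n hkn y hy
    have hyk := (hO1p n k hkn).1 (mem_iInter₂.1 hy.2 k (Finset.mem_range.2 (by omega)))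
    exact sub_of_clopen (hE n (G n)) (hE' n (G n)) isPreconnected_connectedComponentIn
      ((connectedComponentIn_subset _ _).trans (closedBall_subset_closedBall (hrle k)))
      (mem_connectedComponentIn hyk) (hO0E n hy.1)
  have hev : ∀ᶠ n in atTop, k ≤ 2 * φ n := hψ.eventually (eventually_ge_atTop k)
  have main : ∀ F G : Set X, IsClosed F → IsClosed G → F ∪ G = univ →
      F ∩ G ∩ A ∩ closedBall p (r k) ⊆ {p} → zl k ∉ G → ∀ᶠ n in atTop, O (2 * φ n) ⊆ F := by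
    intro F G' hF hG hFG hFGp hzG
    have hsplit : ∀ n, k ≤ 2 * φ n → ∀ y ∈ O (2 * φ n), C k y ⊆ F ∨ C k y ⊆ G' := by
      intro n hkn y hy
      refine isPreconnected_iff_subset_of_disjoint_closed.1 isPreconnected_connectedComponentIn
        F G' hF hG (hFG ▸ subset_univ _) (eq_empty_iff_forall_notMem.2 fun w hw => ?_)
      have h1 := hCE _ hkn y hy hw.1
      have := hFGp ⟨⟨hw.2, hEA n h1⟩, connectedComponentIn_subset _ _ hw.1⟩
      rw [mem_singleton_iff.1 this] at h1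
      exact hpE _ _ h1
    obtain ⟨δ, hδ, hth⟩ := (((hG.inter isClosed_closure).inter
      (isClosed_sphere (x := p) (ε := r k))).isCompact).exists_thickening_subset_open
      (t := (F ∩ A ∩ closedBall p (r k))ᶜ)
      ((hF.inter isClosed_closure).inter isClosed_closedBall).isOpen_compl (by
        rintro w ⟨⟨h1, h2⟩, h3⟩ ⟨⟨h4, -⟩, h5⟩
        have := hFGp ⟨⟨⟨h4, h1⟩, h2⟩, h5⟩
        rw [mem_singleton_iff.1 this, mem_sphere, dist_self] at h3
        exact (hrp k).ne h3)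
    have h2 : ∀ᶠ n : ℕ in atTop, 1 / (((2 * φ n : ℕ) : ℝ) + 1) < δ :=
      (tendsto_one_div_add_atTop_nhds_zero_nat.comp hψ).eventually (gt_mem_nhds hδ)
    filter_upwards [hev, h2, hzk.eventually (hG.isOpen_compl.mem_nhds hzG)] with n hkn hnδ hzn y hy
    have hCF : C k (x (2 * φ n)) ⊆ F :=
      (hsplit n hkn _ (hxO _)).resolve_right fun h => hzn (h (hz _ k hkn).1)
    have hy' := mem_iInter₂.1 hy.2 k (Finset.mem_range.2 (by omega))
    have hyk := (hO1p _ k hkn).1 hy'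
    rcases hsplit n hkn y hy with h | h
    · exact h (mem_connectedComponentIn hyk)
    · exfalso
      obtain ⟨w, hw1, hw2⟩ := bump (hrq k) hyk
      obtain ⟨c, hc1, hc2⟩ := mem_thickening_iff.1 ((hO1p _ k hkn).2 y hy' hw1)
      refine hth (mem_thickening_iff.2 ⟨w, ⟨⟨h hw1, hEA n (hCE _ hkn y hy hw1)⟩, hw2⟩, ?_⟩)
        ⟨⟨hCF hc1, hEA n (hCE _ hkn _ (hxO _) hc1)⟩, connectedComponentIn_subset _ _ hc1⟩
      rw [dist_comm]
      exact hc2.trans hnδ
  intro F G' hF hG hFG hFGp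
  have hzA : zl k ∈ A := isClosed_closure.mem_of_tendsto hzk
    (hev.mono fun n hkn => hEA n (hCE _ hkn _ (hxO _) (hz _ k hkn).1))
  have hzS : zl k ∈ sphere p (r k) := isClosed_sphere.mem_of_tendsto hzk
    (hev.mono fun n hkn => (hz _ k hkn).2)
  by_cases hzG : zl k ∈ G'
  · refine Or.inr (main G' F hG hF (by rwa [union_comm]) (by rwa [inter_comm G' F]) fun hzF => ?_)
    have := hFGp ⟨⟨⟨hzF, hzG⟩, hzA⟩, sphere_subset_closedBall hzS⟩
    rw [mem_singleton_iff.1 this, mem_sphere, dist_self] at hzS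
    exact (hrp k).ne hzS
  · exact Or.inl (main F G' hF hG hFG hFGp hzG)


theorem q1 (X : Type u) [MetricSpace X] [CompactSpace X] [ConnectedSpace X] (p : X)
    (h : Indec (Remainder {x : X // x ≠ p})) : Cik p := by
  by_contra hn
  obtain ⟨w0, -⟩ := h.1.2.nonempty
  let Y := {x : X // x ≠ p}
  let η : Y → StoneCech Y := stoneCechUnit
  have hη : Continuous η := continuous_stoneCechUnit
  have hdense : DenseRange η := denseRange_stoneCechUnit
  obtain ⟨q⟩ : Nonempty Y := (hdense.nonempty_iff).2 ⟨w0⟩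
  obtain ⟨r, A, O, K, x, y, hanti, hrt, hA, hO, hK, hall, hxt, hyt, hmain⟩ := geom q.2 hn
  let π : StoneCech Y → X := stoneCechExtend (continuous_subtype_val (p := fun x : X => x ≠ p))
  have hπ : Continuous π := continuous_stoneCechExtend _
  have hπη : ∀ a : Y, π (η a) = a.1 := fun a => stoneCechExtend_stoneCechUnit _ a
  set R := Remainder Y with hR
  have hπR : ∀ w, π w = p → w ∈ R := by
    rintro w hw ⟨a, rfl⟩
    exact a.2 ((hπη a).symm.trans hw)
  let β : Set X → Set (StoneCech Y) := fun B => closure (η '' ((↑) ⁻¹' B))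
  have hβm : ∀ B B', B ⊆ B' → β B ⊆ β B' := fun B B' hB =>
    closure_mono (image_mono (preimage_mono hB))
  have hβu : ∀ B B', β (B ∪ B') = β B ∪ β B' := fun B B' => by
    simp only [β, preimage_union, image_union, closure_union]
  have hβπ : ∀ B, IsClosed B → ∀ w ∈ β B, π w ∈ B := by
    intro B hB w hw
    refine closure_minimal (t := π ⁻¹' B) ?_ (hB.preimage hπ) hw
    rintro _ ⟨a, ha, rfl⟩
    rw [mem_preimage, hπη]; exact ha
  have hβc : ∀ B, IsClosed B → p ∉ B → Disjoint (β B) R := by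
    intro B hB hp
    have h1 : IsCompact ((↑) ⁻¹' B : Set Y) :=
      Topology.IsInducing.subtypeVal.isCompact_preimage' hB.isCompact (by
        intro b hb
        exact ⟨⟨b, fun h => hp (h ▸ hb)⟩, rfl⟩)
    have h2 : β B = η '' ((↑) ⁻¹' B) := (h1.image hη).isClosed.closure_eq
    rw [h2]
    exact disjoint_compl_right.mono_left (image_subset_range _ _)
  have hseq : ∀ (s : ℕ → X), Tendsto s atTop (𝓝 p) → (∀ n, s n ≠ p) → ∀ B, IsClosed B →
      (∀ n, s n ∉ B) → ∃ w ∈ R, w ∉ β B := by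
    intro s hs hsp B hB hsB
    obtain ⟨w, hw⟩ := exists_clusterPt_of_compactSpace
      (map (fun n => η ⟨s n, hsp n⟩) atTop)
    have hw' : MapClusterPt w atTop fun n => η ⟨s n, hsp n⟩ := hw
    have h1 : π w = p := by
      have h2 : MapClusterPt (π w) atTop (π ∘ fun n => η ⟨s n, hsp n⟩) :=
        hw'.continuousAt_comp hπ.continuousAt
      have h3 : (π ∘ fun n => η ⟨s n, hsp n⟩) = s := funext fun n => hπη _
      rw [h3] at h2
      exact eq_of_nhds_neBot (h2.clusterPt.mono hs)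
    refine ⟨w, hπR w h1, fun hwB => ?_⟩
    have h4 : IsClosed (insert p (range s)) := hs.isCompact_insert_range.isClosed
    have h5 := sc_disjoint (Y := Y) (h4.preimage continuous_subtype_val)
      (hB.preimage continuous_subtype_val) (by
        rw [disjoint_left]
        rintro a (ha | ⟨n, hn⟩) haB
        · exact a.2 ha
        · exact hsB n (hn ▸ haB))
    refine disjoint_left.1 h5 ?_ hwB
    refine mem_closure_iff_clusterPt.2 (hw.mono (le_principal_iff.2 ?_))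
    exact mem_map.2 (Eventually.of_forall fun n => ⟨_, Or.inr ⟨n, rfl⟩, rfl⟩)
  have hxp : ∀ n, x n ≠ p := fun n h => (hall n).2.2.1 (h ▸ (hall n).2.1 (hall n).1)
  let Ω := ⋃ n, O n
  have hΩ : IsOpen Ω := isOpen_iUnion hO
  obtain ⟨v, hvR, hvV⟩ := hseq x hxt hxp Ωᶜ hΩ.isClosed_compl
    fun n h => h (mem_iUnion.2 ⟨n, (hall n).1⟩)
  obtain ⟨v', hv'R, hv'A⟩ := hseq y hyt (fun n => (hall n).2.2.2.2.2) A hA
    fun n => (hall n).2.2.2.2.1
  have htail : ∀ w ∈ R, w ∉ β Ωᶜ → ∀ F, (∀ᶠ n in atTop, O n ⊆ F) → w ∈ β (F ∩ Ω) := by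
    intro w hwR hwV F hF
    obtain ⟨N, hN⟩ := eventually_atTop.1 hF
    have h1 : w ∈ β (Ωᶜ ∪ ((F ∩ Ω) ∪ ⋃ n ∈ Finset.range N, K n)) := by
      have : (Ωᶜ ∪ ((F ∩ Ω) ∪ ⋃ n ∈ Finset.range N, K n)) = univ := by
        refine eq_univ_of_forall fun a => ?_
        by_cases ha : a ∈ Ω
        · obtain ⟨n, hn⟩ := mem_iUnion.1 ha
          by_cases hnN : N ≤ n
          · exact Or.inr (Or.inl ⟨hN n hnN hn, ha⟩)
          · exact Or.inr (Or.inr (mem_iUnion₂.2 ⟨n, Finset.mem_range.2 (by omega),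
              (hall n).2.1 hn⟩))
        · exact Or.inl ha
      rw [this]
      simp only [β, preimage_univ, image_univ]
      exact hdense w
    rw [hβu, hβu] at h1
    rcases h1 with h1 | h1 | h1
    · exact absurd h1 hwV
    · exact h1
    · refine absurd hwR (disjoint_left.1 (hβc _ (isClosed_biUnion_finset fun n _ => hK n) ?_) h1)
      simp only [mem_iUnion, not_exists]
      exact fun n _ => (hall n).2.2.1
  have hΩA : Ω ⊆ A := iUnion_subset fun n => (hall n).2.2.2.1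
  let H := β A ∩ R
  have hH : IsCompact H := h.1.1.inter_left isClosed_closure
  have hVH : ∀ w ∈ R, w ∉ β Ωᶜ → w ∈ H := fun w hwR hwV =>
    ⟨hβm _ _ (inter_subset_right.trans hΩA) (htail w hwR hwV univ
      (Eventually.of_forall fun _ => subset_univ _)), hwR⟩
  have hvH := hVH v hvR hvV
  have hZc : IsCompact (connectedComponentIn H v) := by
    rw [connectedComponentIn_eq_image hvH]
    haveI : CompactSpace H := isCompact_iff_compactSpace.1 hH
    exact isClosed_connectedComponent.isCompact.image continuous_subtype_val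
  refine decomp (S := connectedComponentIn H v) (V := (β Ωᶜ)ᶜ) h
    ⟨hZc, isConnected_connectedComponentIn_iff.2 hvH⟩ ?_ isClosed_closure.isOpen_compl
    ⟨v, hvV, hvR⟩ ?_
  · refine (ssubset_iff_of_subset ((connectedComponentIn_subset _ _).trans inter_subset_right)).2
      ⟨v', hv'R, fun h' => hv'A (connectedComponentIn_subset _ _ h').1⟩
  rintro w ⟨hwV, hwR⟩
  by_contra hw
  obtain ⟨E, hEH, hE, hE', hvE, hwE⟩ := sep (T := {w}) hH isClosed_singleton hvH
    (disjoint_singleton_right.2 hw)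
  obtain ⟨V1, V2, hV1, hV2, hEV, hE'V, hd⟩ := normal_separation hE hE' disjoint_sdiff_right
  obtain ⟨k, hk⟩ : ∃ k, β (A ∩ closedBall p (r k)) ⊆ V1 ∪ V2 := by
    refine exists_subset_nhds_of_isCompact' (V := fun k => β (A ∩ closedBall p (r k)))
      (directed_of_isDirected_le fun a b hab => hβm _ _
        (inter_subset_inter_right _ (closedBall_subset_closedBall (hanti hab))))
      (fun _ => isClosed_closure.isCompact) (fun _ => isClosed_closure) fun u hu => ?_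
    apply (hV1.union hV2).mem_nhds
    have hu' := mem_iInter.1 hu
    have h1 : π u = p := by
      apply dist_le_zero.1
      exact ge_of_tendsto' hrt fun k => (hβπ _ (hA.inter isClosed_closedBall) u (hu' k)).2
    have h2 : u ∈ H := ⟨hβm _ _ inter_subset_left (hu' 0), hπR u h1⟩
    by_cases huE : u ∈ E
    exacts [Or.inl (hEV huE), Or.inr (hE'V ⟨h2, huE⟩)]
  have hopen : IsOpenMap (Subtype.val : Y → X) := isOpen_ne.isOpenMap_subtype_val
  have hfin : ∀ V : Set (StoneCech Y), IsOpen V → ∀ u ∈ β ((Subtype.val '' (η ⁻¹' V))ᶜ ∩ Ω),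
      u ∉ V := by
    intro V hV u hu
    refine closure_minimal (t := Vᶜ) ?_ hV.isClosed_compl hu
    rintro _ ⟨a, ha, rfl⟩ haV
    exact ha.1 ⟨a, haV, rfl⟩
  rcases hmain k (Subtype.val '' (η ⁻¹' V2))ᶜ (Subtype.val '' (η ⁻¹' V1))ᶜ
    (hopen _ (hV2.preimage hη)).isClosed_compl (hopen _ (hV1.preimage hη)).isClosed_compl (by
      rw [← compl_inter, ← image_inter Subtype.val_injective, ← preimage_inter,
        inter_comm, hd.inter_eq]
      simp) (by
      rintro a ⟨⟨⟨h1, h2⟩, h3⟩, h4⟩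
      by_contra hap
      rcases hk (subset_closure ⟨⟨a, hap⟩, ⟨h3, h4⟩, rfl⟩) with h5 | h5
      exacts [h2 ⟨_, h5, rfl⟩, h1 ⟨_, h5, rfl⟩]) with h1 | h1
  · exact hfin V2 hV2 w (htail w hwR hwV _ h1)
      (hE'V ⟨hVH w hwR hwV, disjoint_singleton_right.1 hwE⟩)
  · exact hfin V1 hV1 v (htail v hvR hvV _ h1) (hEV hvE)


theorem indec_of {X : Type u} [MetricSpace X] [CompactSpace X] (p : X)
    (h0 : p ∈ closure ({p}ᶜ : Set X))
    (hA : ∀ F G N : Set X, IsClosed F → IsClosed G → N ∈ 𝓝 p → N ⊆ F ∪ G → F ∩ G ∩ N ⊆ {p} →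
      F ∈ 𝓝 p ∨ G ∈ 𝓝 p)
    (hB : ∀ O O' : Set X, IsOpen O → IsOpen O' → Disjoint O O' → p ∉ O → p ∉ O' →
      p ∈ closure O → p ∈ closure O' → ∃ F1 F2 : Set X, IsClosed F1 ∧ IsClosed F2 ∧
        Oᶜ ⊆ F1 ∪ F2 ∧ F1 ∩ F2 ⊆ {p} ∧ p ∈ closure (F1 ∩ O') ∧ p ∈ closure (F2 ∩ O')) :
    Indec (Remainder {x : X // x ≠ p}) := by
  let Y := {x : X // x ≠ p}
  let η : Y → StoneCech Y := stoneCechUnit
  have hη : Continuous η := continuous_stoneCechUnit
  have hdense : DenseRange η := denseRange_stoneCechUnit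
  let π : StoneCech Y → X := stoneCechExtend (continuous_subtype_val (p := fun x : X => x ≠ p))
  have hπ : Continuous π := continuous_stoneCechExtend _
  have hπη : ∀ a : Y, π (η a) = a.1 := fun a => stoneCechExtend_stoneCechUnit _ a
  set R := Remainder Y with hR
  have hπR : ∀ w, π w = p → w ∈ R := by
    rintro w hw ⟨a, rfl⟩
    exact a.2 ((hπη a).symm.trans hw)
  let β : Set X → Set (StoneCech Y) := fun B => closure (η '' ((↑) ⁻¹' B))
  have hβm : ∀ B B', B ⊆ B' → β B ⊆ β B' := fun B B' hB =>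
    closure_mono (image_mono (preimage_mono hB))
  have hβu : ∀ B B', β (B ∪ B') = β B ∪ β B' := fun B B' => by
    simp only [β, preimage_union, image_union, closure_union]
  have hβuniv : ∀ w, w ∈ β univ := fun w => by
    simp only [β, preimage_univ, image_univ]
    exact hdense w
  have hβπ : ∀ B, ∀ w ∈ β B, π w ∈ closure B := by
    intro B w hw
    refine closure_minimal (t := π ⁻¹' closure B) ?_ (isClosed_closure.preimage hπ) hw
    rintro _ ⟨a, ha, rfl⟩
    rw [mem_preimage, hπη]; exact subset_closure ha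
  have hβc : ∀ B, IsClosed B → p ∉ B → Disjoint (β B) R := by
    intro B hB hp
    have h1 : IsCompact ((↑) ⁻¹' B : Set Y) :=
      Topology.IsInducing.subtypeVal.isCompact_preimage' hB.isCompact (by
        intro b hb
        exact ⟨⟨b, fun h => hp (h ▸ hb)⟩, rfl⟩)
    have h2 : β B = η '' ((↑) ⁻¹' B) := (h1.image hη).isClosed.closure_eq
    rw [h2]
    exact disjoint_compl_right.mono_left (image_subset_range _ _)
  have hnh : ∀ N ∈ 𝓝 p, R ⊆ β N := by
    intro N hN w hw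
    have := hβuniv w
    rw [← union_compl_self (interior N), hβu] at this
    rcases this with h | h
    · exact hβm _ _ interior_subset h
    · exact absurd hw (disjoint_left.1 (hβc _ isOpen_interior.isClosed_compl
        (fun h' => h' (mem_interior_iff_mem_nhds.2 hN))) h)
  have hRπ : ∀ w ∈ R, π w = p := by
    intro w hw
    apply dist_le_zero.1
    apply le_of_forall_pos_le_add
    intro ε hε
    have := hβπ _ w (hnh _ (closedBall_mem_nhds p hε) hw)
    rw [isClosed_closedBall.closure_eq] at this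
    simpa using this
  have hRc : IsClosed R := by
    have : R = π ⁻¹' {p} := Subset.antisymm hRπ hπR
    rw [this]; exact isClosed_singleton.preimage hπ
  have hex : ∀ S : Set X, p ∉ S → p ∈ closure S → ∃ w ∈ R, w ∈ β S := by
    intro S hS hp
    have h1 : S ⊆ π '' β S := fun a ha =>
      ⟨η ⟨a, fun h => hS (h ▸ ha)⟩, subset_closure ⟨_, ha, rfl⟩, hπη _⟩
    obtain ⟨w, hw, hwp⟩ := closure_minimal h1 (isClosed_closure.isCompact.image hπ).isClosed hp
    exact ⟨w, hπR w hwp, hw⟩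
  have hopen : IsOpenMap (Subtype.val : Y → X) := isOpen_ne.isOpenMap_subtype_val
  let o : Set (StoneCech Y) → Set X := fun V => Subtype.val '' (η ⁻¹' V)
  have ho : ∀ V, IsOpen V → IsOpen (o V) := fun V hV => hopen _ (hV.preimage hη)
  have hop : ∀ V, p ∉ o V := by rintro V ⟨a, -, ha⟩; exact a.2 ha
  have hfin : ∀ V, IsOpen V → ∀ w ∈ β (o V)ᶜ, w ∉ V := by
    intro V hV w hw
    refine closure_minimal (t := Vᶜ) ?_ hV.isClosed_compl hw
    rintro _ ⟨a, ha, rfl⟩ haV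
    exact ha ⟨a, haV, rfl⟩
  have hβo : ∀ V, β (o V) ⊆ closure V := by
    intro V
    apply closure_mono
    rintro _ ⟨a, ⟨b, hb, hab⟩, rfl⟩
    rwa [← Subtype.val_injective hab]
  have hacc : ∀ V, IsOpen V → ∀ w ∈ R, w ∈ V → p ∈ closure (o V) := by
    intro V hV w hw hwV
    have := hβuniv w
    rw [← union_compl_self (o V), hβu] at this
    rw [← hRπ w hw]
    exact hβπ _ w (this.resolve_right fun h => hfin V hV w h hwV)
  obtain ⟨w0, hw0, -⟩ := hex _ (by simp) h0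
  refine ⟨⟨hRc.isCompact, ⟨w0, hw0⟩, ?_⟩, ?_⟩
  · rw [isPreconnected_iff_subset_of_fully_disjoint_closed hRc]
    intro u v hu hv huv hd
    obtain ⟨V1, V2, hV1, hV2, h1, h2, hd'⟩ := normal_separation hu hv hd
    have hN : (π '' (V1 ∪ V2)ᶜ)ᶜ ∈ 𝓝 p := by
      refine ((hV1.union hV2).isClosed_compl.isCompact.image hπ).isClosed.isOpen_compl.mem_nhds ?_
      rintro ⟨w, hw, hwp⟩
      exact hw ((huv (hπR w hwp)).imp (fun h => h1 h) fun h => h2 h)
    rcases hA (o V2)ᶜ (o V1)ᶜ _ (ho _ hV2).isClosed_compl (ho _ hV1).isClosed_compl hN (by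
        intro a _
        by_contra h
        simp only [mem_union, mem_compl_iff, not_or, not_not] at h
        obtain ⟨⟨b, hb, hab⟩, ⟨c, hc, hac⟩⟩ := h
        obtain rfl : b = c := Subtype.val_injective (hab.trans hac.symm)
        exact disjoint_left.1 hd' hc hb) (by
        rintro a ⟨⟨h3, h4⟩, h5⟩
        by_contra hap
        apply h5
        refine ⟨η ⟨a, hap⟩, ?_, hπη _⟩
        rintro (h | h)
        exacts [h4 ⟨_, h, rfl⟩, h3 ⟨_, h, rfl⟩]) with h | h
    · exact Or.inl fun w hw => (huv hw).resolve_right fun h' => hfin _ hV2 w (hnh _ h hw) (h2 h')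
    · exact Or.inr fun w hw => (huv hw).resolve_left fun h' => hfin _ hV1 w (hnh _ h hw) (h1 h')
  · rintro ⟨A, B, hAc, hBc, hAR, hBR, hAB⟩
    obtain ⟨w, hwR, hwB⟩ := exists_of_ssubset hBR
    obtain ⟨w', hw'R, hw'A⟩ := exists_of_ssubset hAR
    obtain ⟨V0, U0, hV0, hU0, h1, h2, hd0⟩ := normal_separation isClosed_singleton hBc.1.isClosed
      (disjoint_singleton_left.2 hwB)
    obtain ⟨W1, W2, hW1, hW2, h3, h4, hd1⟩ := normal_separation isClosed_singleton hAc.1.isClosed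
      (disjoint_singleton_left.2 hw'A)
    have hw'B : w' ∈ B := ((hAB.symm ▸ hw'R : w' ∈ A ∪ B)).resolve_left hw'A
    obtain ⟨F1, F2, hF1, hF2, hcov, hint, hc1, hc2⟩ := hB (o V0) (o (U0 ∩ W1)) (ho _ hV0)
      (ho _ (hU0.inter hW1)) (by
        rw [disjoint_left]
        rintro a ⟨b, hb, hab⟩ ⟨c, hc, hac⟩
        obtain rfl : b = c := Subtype.val_injective (hab.trans hac.symm)
        exact disjoint_left.1 hd0 hb hc.1) (hop _) (hop _) (hacc _ hV0 w hwR (h1 rfl))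
      (hacc _ (hU0.inter hW1) w' hw'R ⟨h2 hw'B, h3 rfl⟩)
    have hdis : Disjoint (β F1) (β F2) := sc_disjoint (Y := Y)
      (hF1.preimage continuous_subtype_val) (hF2.preimage continuous_subtype_val) (by
        rw [disjoint_left]
        exact fun a h h' => a.2 (hint ⟨h, h'⟩))
    have hBF : B ⊆ β F1 ∪ β F2 := by
      intro b hb
      have := hβuniv b
      rw [← union_compl_self (o V0), hβu] at this
      rw [← hβu]
      refine hβm _ _ hcov (this.resolve_left fun h => ?_)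
      exact disjoint_left.1 (hd0.closure_left hU0) (hβo _ h) (h2 hb)
    have hin : ∀ F, p ∈ closure (F ∩ o (U0 ∩ W1)) → ∃ b ∈ B, b ∈ β F := by
      intro F hF
      obtain ⟨b, hbR, hb⟩ := hex _ (fun h => hop _ h.2) hF
      refine ⟨b, ((hAB.symm ▸ hbR : b ∈ A ∪ B)).resolve_left fun hbA => ?_,
        hβm _ _ inter_subset_left hb⟩
      have := closure_mono inter_subset_right (hβo _ (hβm _ _ inter_subset_right hb))
      exact disjoint_left.1 (hd1.closure_left hW2) this (h4 hbA)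
    rcases (isPreconnected_iff_subset_of_fully_disjoint_closed hBc.1.isClosed).1 hBc.2.2 _ _
      isClosed_closure isClosed_closure hBF hdis with h | h
    · obtain ⟨b, hb, hb'⟩ := hin F2 hc2
      exact disjoint_left.1 hdis (h hb) hb'
    · obtain ⟨b, hb, hb'⟩ := hin F1 hc1
      exact disjoint_left.1 hdis hb' (h hb)

theorem quot_closedMap {Z : Type} [TopologicalSpace Z] [CompactSpace Z] [T2Space Z] (S : Setoid Z)
    (hS : IsClosed {z : Z × Z | S z.1 z.2}) : IsClosedMap (Quotient.mk S) := by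
  intro A hA
  rw [← isQuotientMap_quotient_mk'.isClosed_preimage]
  have : Quotient.mk' ⁻¹' (Quotient.mk S '' A) =
      Prod.fst '' ({z : Z × Z | S z.1 z.2} ∩ Prod.snd ⁻¹' A) := by
    ext z
    constructor
    · rintro ⟨a, ha, h⟩
      exact ⟨(z, a), ⟨S.symm (Quotient.exact h), ha⟩, rfl⟩
    · rintro ⟨⟨z', a⟩, ⟨h, ha⟩, rfl⟩
      exact ⟨a, ha, Quotient.sound (S.symm h)⟩
  rw [this]
  exact ((hS.inter (hA.preimage continuous_snd)).isCompact.image continuous_fst).isClosed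

theorem quot_metrizable {Z : Type} [TopologicalSpace Z] [CompactSpace Z] [T2Space Z]
    [SecondCountableTopology Z] (S : Setoid Z) (hS : IsClosed {z : Z × Z | S z.1 z.2}) :
    TopologicalSpace.MetrizableSpace (Quotient S) := by
  have hc : Continuous (Quotient.mk S) := continuous_quotient_mk'
  have hcl := quot_closedMap S hS
  have hpr : IsProperMap (Quotient.mk S) := by
    refine isProperMap_iff_isClosedMap_and_compact_fibers.2 ⟨hc, hcl, fun y => ?_⟩
    obtain ⟨a, rfl⟩ := Quotient.exists_rep y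
    have := hcl {a} isClosed_singleton
    rw [image_singleton] at this
    exact (this.preimage hc).isCompact
  haveI : T2Space (Quotient S) := by
    rw [t2_iff_isClosed_diagonal]
    have : diagonal (Quotient S) =
        Prod.map (Quotient.mk S) (Quotient.mk S) '' {z : Z × Z | S z.1 z.2} := by
      ext ⟨x, y⟩
      obtain ⟨a, rfl⟩ := Quotient.exists_rep x
      obtain ⟨b, rfl⟩ := Quotient.exists_rep y
      constructor
      · intro h
        exact ⟨(a, b), Quotient.exact h, rfl⟩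
      · rintro ⟨z, hz, h⟩
        rw [← h]
        exact Quotient.sound hz
    rw [this]
    exact (hpr.prodMap hpr).isClosedMap _ hS
  haveI : SecondCountableTopology (Quotient S) := by
    let b := TopologicalSpace.countableBasis Z
    have hb := TopologicalSpace.isBasis_countableBasis Z
    have hbasis : TopologicalSpace.IsTopologicalBasis
        ((fun t : Set (Set Z) => (Quotient.mk S '' (⋃₀ t)ᶜ)ᶜ) '' {t | t.Finite ∧ t ⊆ b}) := by
      apply TopologicalSpace.isTopologicalBasis_of_isOpen_of_nhds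
      · rintro _ ⟨t, ht, rfl⟩
        exact (hcl _ (isOpen_sUnion fun s hs => hb.isOpen (ht.2 hs)).isClosed_compl).isOpen_compl
      · intro x U hx hU
        have hK : IsCompact (Quotient.mk S ⁻¹' {x}) := (isClosed_singleton.preimage hc).isCompact
        obtain ⟨t, ht1, ht2, ht3⟩ := hK.elim_finite_subcover_image
          (b := {s ∈ b | s ⊆ Quotient.mk S ⁻¹' U}) (c := id) (fun s hs => hb.isOpen hs.1) (by
            intro z hz
            obtain ⟨s, hs, hzs, hsU⟩ := hb.exists_subset_of_mem_open (a := z)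
              (u := Quotient.mk S ⁻¹' U) (by rw [mem_preimage, hz]; exact hx) (hU.preimage hc)
            exact mem_iUnion₂.2 ⟨s, ⟨hs, hsU⟩, hzs⟩)
        refine ⟨_, ⟨t, ⟨ht2, fun s hs => (ht1 hs).1⟩, rfl⟩, ?_, ?_⟩
        · rintro ⟨z, hz, hzx⟩
          obtain ⟨s, hs, hzs⟩ := mem_iUnion₂.1 (ht3 hzx)
          exact hz ⟨s, hs, hzs⟩
        · intro y hy
          obtain ⟨a, rfl⟩ := Quotient.exists_rep y
          by_contra h
          exact hy ⟨a, fun ⟨s, hs, has⟩ => h ((ht1 hs).2 has), rfl⟩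
    exact hbasis.secondCountableTopology
      ((countable_setOf_finite_subset (TopologicalSpace.countable_countableBasis Z)).image _)
  infer_instance

theorem seq_ex : ∃ μ k : ℕ → ℕ,
    (∀ m j, 1 ≤ j → ∃ T, ∀ t ≥ T, k t < j →
      ∃ u > t, μ u = m ∧ k u = j ∧ ∀ r, t < r → r ≤ u → j ≤ k r) ∧
    ∀ T, ∃ t ≥ T, k t = 0 := by
  classical
  let nx : ℕ × ℕ → ℕ × ℕ := fun z => if z.2 + 1 < (z.1 + 2) ^ (z.1 + 1) then (z.1, z.2 + 1)
    else (z.1 + 1, 0)
  let st : ℕ → ℕ × ℕ := fun t => nx^[t] (0, 0)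
  have hs : ∀ t, st (t + 1) = nx (st t) := fun t => Function.iterate_succ_apply' _ _ _
  have hval : ∀ t, (st t).2 < ((st t).1 + 2) ^ ((st t).1 + 1) := by
    intro t
    induction t with
    | zero => simp [st]
    | succ t ih =>
      rw [hs]
      simp only [nx]
      split_ifs with h
      · exact h
      · positivity
  have hadd : ∀ t d, (st t).2 + d < ((st t).1 + 2) ^ ((st t).1 + 1) →
      st (t + d) = ((st t).1, (st t).2 + d) := by
    intro t d
    induction d with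
    | zero => intro _; rfl
    | succ d ih =>
      intro h
      rw [← add_assoc, hs, ih (by omega)]
      simp only [nx]
      rw [if_pos (by omega), add_assoc]
  have hnext : ∀ t, ∃ t' > t, st t' = ((st t).1 + 1, 0) := by
    intro t
    have h1 := hval t
    refine ⟨t + (((st t).1 + 2) ^ ((st t).1 + 1) - 1 - (st t).2) + 1, by omega, ?_⟩
    rw [hs, hadd t _ (by omega)]
    simp only [nx]
    rw [if_neg (by omega)]
  have hmono : Monotone fun t => (st t).1 := monotone_nat_of_le_succ fun t => by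
    rw [hs]; simp only [nx]; split_ifs <;> simp
  have hunb : ∀ N, ∃ T, N ≤ (st T).1 := by
    intro N
    induction N with
    | zero => exact ⟨0, Nat.zero_le _⟩
    | succ N ih =>
      obtain ⟨T, hT⟩ := ih
      obtain ⟨t', -, h⟩ := hnext T
      exact ⟨t', by rw [h]; simpa using hT⟩
  let v : ℕ × ℕ → ℕ := fun z => Nat.findGreatest (fun w => (z.1 + 2) ^ w ∣ z.2) z.1
  have hv1 : ∀ z, (z.1 + 2) ^ v z ∣ z.2 := fun z =>
    Nat.findGreatest_spec (P := fun w => (z.1 + 2) ^ w ∣ z.2) (Nat.zero_le _) (by simp)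
  have hv2 : ∀ z, v z ≤ z.1 := fun z => Nat.findGreatest_le _
  refine ⟨fun t => (st t).2 / ((st t).1 + 2) ^ v (st t) % ((st t).1 + 2) - 1,
    fun t => (st t).1 - v (st t), fun m j hj => ?_, fun T => ?_⟩
  · obtain ⟨T, hT⟩ := hunb (max m j)
    refine ⟨T, fun t ht hk => ?_⟩
    have hN : max m j ≤ (st t).1 := hT.trans (hmono ht)
    beta_reduce at hk
    obtain ⟨N, u, hst⟩ : ∃ N u, st t = (N, u) := ⟨_, _, rfl⟩
    have hval' := hval t
    have hv1' := hv1 (st t)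
    have hv2' := hv2 (st t)
    rw [hst] at hN hk hval' hv1' hv2'
    simp only at hN hk hval' hv1' hv2'
    have hmN : m ≤ N := (le_max_left _ _).trans hN
    have hjN : j ≤ N := (le_max_right _ _).trans hN
    obtain ⟨w, hw⟩ : ∃ w, w = N - j := ⟨_, rfl⟩
    obtain ⟨a, ha⟩ : (N + 2) ^ (w + 1) ∣ u := (pow_dvd_pow _ (by omega)).trans hv1'
    have hP : 0 < (N + 2) ^ w := by positivity
    have hlt : (m + 1) * (N + 2) ^ w < (N + 2) ^ (w + 1) := by
      rw [pow_succ, mul_comm]; exact Nat.mul_lt_mul_of_pos_left (by omega) hP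
    have hroom : u + (N + 2) ^ (w + 1) ≤ (N + 2) ^ (N + 1) := by
      have h1 : (N + 2) ^ (N + 1) = (N + 2) ^ (w + 1) * (N + 2) ^ j := by
        rw [← pow_add]; congr 1; omega
      rw [h1, ha] at hval' ⊢
      have := Nat.lt_of_mul_lt_mul_left hval'
      nlinarith [pow_pos (show 0 < N + 2 by omega) (w + 1)]
    have hstd : ∀ d, d < (N + 2) ^ (w + 1) → st (t + d) = (N, u + d) := by
      intro d hd
      have := hadd t d (by rw [hst]; simp only; omega)
      rwa [hst] at this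
    have hvle : ∀ d, 0 < d → d < (N + 2) ^ (w + 1) → v (N, u + d) ≤ w := by
      intro d hd0 hd
      by_contra h
      have h1 : (N + 2) ^ (w + 1) ∣ u + d := (pow_dvd_pow _ (by omega)).trans (hv1 (N, u + d))
      have h2 : (N + 2) ^ (w + 1) ∣ d := (Nat.dvd_add_right ⟨a, ha⟩).1 h1
      exact absurd (Nat.le_of_dvd hd0 h2) (by omega)
    have hd0 : 0 < (m + 1) * (N + 2) ^ w := by positivity
    have hveq : v (N, u + (m + 1) * (N + 2) ^ w) = w := by
      refine le_antisymm (hvle _ hd0 hlt) (Nat.le_findGreatest (by simp only; omega) ?_)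
      simp only
      exact dvd_add ((pow_dvd_pow _ (by omega)).trans ⟨a, ha⟩) (dvd_mul_left _ _)
    refine ⟨t + (m + 1) * (N + 2) ^ w, by omega, ?_, ?_, fun r h1 h2 => ?_⟩
    · beta_reduce
      rw [hstd _ hlt, hveq]
      simp only
      have : u + (m + 1) * (N + 2) ^ w = (N + 2) ^ w * ((m + 1) + (N + 2) * a) := by
        rw [ha]; ring
      rw [this, Nat.mul_div_cancel_left _ hP, Nat.add_mul_mod_self_left,
        Nat.mod_eq_of_lt (by omega)]
      omega
    · beta_reduce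
      rw [hstd _ hlt, hveq]
      simp only
      omega
    · obtain ⟨d, rfl⟩ : ∃ d, r = t + d := ⟨r - t, by omega⟩
      beta_reduce
      rw [hstd d (by omega)]
      have := hvle d (by omega) (by omega)
      simp only
      omega
  · obtain ⟨t', h1, h2⟩ := hnext T
    refine ⟨t', h1.le, ?_⟩
    beta_reduce
    rw [h2]
    have : (st T).1 + 1 ≤ v ((st T).1 + 1, 0) := Nat.le_findGreatest le_rfl (by simp)
    simp only
    omega


section Constr
variable (μ k : ℕ → ℕ)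

def pa (t : ℕ) : ℕ := if k t ≠ 0 ∧ μ t ≤ 2 * t then μ t else 0

theorem pa_le (t : ℕ) : pa μ k t ≤ 2 * t := by
  unfold pa; split_ifs with h
  exacts [h.2, Nat.zero_le _]

def anc (n : ℕ) (l : ℕ) : ℕ := if l ≤ n then l else anc n (pa μ k ((l - 1) / 2))
termination_by l
decreasing_by have := pa_le μ k ((l - 1) / 2); omega

def lev (l : ℕ) : ℕ := if l = 0 then 0 else max (k ((l - 1) / 2)) (lev (pa μ k ((l - 1) / 2)))
termination_by l
decreasing_by have := pa_le μ k ((l - 1) / 2); omega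

theorem anc_of_le {n l : ℕ} (h : l ≤ n) : anc μ k n l = l := by rw [anc, if_pos h]

theorem anc_of_lt {n l : ℕ} (h : n < l) : anc μ k n l = anc μ k n (pa μ k ((l - 1) / 2)) := by
  rw [anc, if_neg (by omega)]

theorem lev_zero : lev μ k 0 = 0 := by rw [lev, if_pos rfl]

theorem lev_pos {l : ℕ} (h : l ≠ 0) :
    lev μ k l = max (k ((l - 1) / 2)) (lev μ k (pa μ k ((l - 1) / 2))) := by rw [lev, if_neg h]

theorem lev1 (t : ℕ) : lev μ k (2 * t + 1) = max (k t) (lev μ k (pa μ k t)) := by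
  rw [lev_pos μ k (by omega), show (2 * t + 1 - 1) / 2 = t by omega]

theorem lev2 (t : ℕ) : lev μ k (2 * t + 2) = max (k t) (lev μ k (pa μ k t)) := by
  rw [lev_pos μ k (by omega), show (2 * t + 2 - 1) / 2 = t by omega]

theorem anc1 {n t : ℕ} (h : n ≤ 2 * t) : anc μ k n (2 * t + 1) = anc μ k n (pa μ k t) := by
  rw [anc_of_lt μ k (by omega), show (2 * t + 1 - 1) / 2 = t by omega]

theorem anc2 {n t : ℕ} (h : n ≤ 2 * t) : anc μ k n (2 * t + 2) = anc μ k n (pa μ k t) := by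
  rw [anc_of_lt μ k (by omega), show (2 * t + 2 - 1) / 2 = t by omega]

theorem anc_le (n l : ℕ) : anc μ k n l ≤ n := by
  induction l using Nat.strong_induction_on with
  | _ l ih =>
    by_cases h : l ≤ n
    · rw [anc_of_le μ k h]; exact h
    · rw [anc_of_lt μ k (by omega)]
      exact ih _ (by have := pa_le μ k ((l - 1) / 2); omega)

theorem anc_anc {r n : ℕ} (hr : r ≤ n) (l : ℕ) : anc μ k r (anc μ k n l) = anc μ k r l := by
  induction l using Nat.strong_induction_on with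
  | _ l ih =>
    by_cases h : l ≤ n
    · rw [anc_of_le μ k h]
    · rw [anc_of_lt μ k (n := n) (by omega), anc_of_lt μ k (n := r) (l := l) (by omega)]
      exact ih _ (by have := pa_le μ k ((l - 1) / 2); omega)

theorem lev_anc (n l : ℕ) : lev μ k (anc μ k n l) ≤ lev μ k l := by
  induction l using Nat.strong_induction_on with
  | _ l ih =>
    by_cases h : l ≤ n
    · rw [anc_of_le μ k h]
    · rw [anc_of_lt μ k (by omega), lev_pos μ k (l := l) (by omega)]
      exact (ih _ (by have := pa_le μ k ((l - 1) / 2); omega)).trans (le_max_right _ _)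

noncomputable def HH (j : ℕ) : ℝ := 1 / ((j : ℝ) + 1)

theorem HH_pos (j : ℕ) : 0 < HH j := by unfold HH; positivity

theorem HH_lt {i j : ℕ} (h : i < j) : HH j < HH i := by
  unfold HH
  apply one_div_lt_one_div_of_lt (by positivity)
  have : (i : ℝ) < j := by exact_mod_cast h
  linarith

theorem HH_le {i j : ℕ} (h : i ≤ j) : HH j ≤ HH i := by
  rcases h.eq_or_lt with rfl | h
  exacts [le_rfl, (HH_lt h).le]

theorem HH_small {ε : ℝ} (h : 0 < ε) : ∃ J, ∀ j ≥ J, HH j < ε := by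
  obtain ⟨n, hn⟩ := exists_nat_one_div_lt h
  exact ⟨n, fun j hj => (HH_le hj).trans_lt hn⟩

def ZZ : Set ((ℕ → ℕ) × ℝ) := {z | (∀ n, z.1 n ≤ n ∧ anc μ k n (z.1 (n + 1)) = z.1 n ∧
  z.2 ≤ HH (lev μ k (z.1 n))) ∧ 0 ≤ z.2}

theorem ZZ_compact : IsCompact (ZZ μ k) := by
  have h1 : IsCompact ((univ.pi fun n : ℕ => Iic n) ×ˢ Icc (0 : ℝ) 1) :=
    (isCompact_univ_pi fun n => (finite_Iic n).isCompact).prod isCompact_Icc
  have hc : ∀ n, Continuous fun z : (ℕ → ℕ) × ℝ => z.1 n := fun n =>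
    (continuous_apply n).comp continuous_fst
  refine h1.of_isClosed_subset ?_ ?_
  · refine IsClosed.inter (s₁ := {z : (ℕ → ℕ) × ℝ | ∀ n, z.1 n ≤ n ∧
      anc μ k n (z.1 (n + 1)) = z.1 n ∧ z.2 ≤ HH (lev μ k (z.1 n))}) ?_
      (isClosed_le continuous_const continuous_snd)
    rw [setOf_forall]
    refine isClosed_iInter fun n => (isClosed_le (hc n) continuous_const).inter
      ((isClosed_eq ((continuous_of_discreteTopology (f := anc μ k n)).comp (hc _)) (hc n)).inter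
        (isClosed_le continuous_snd ((continuous_of_discreteTopology
          (f := fun l => HH (lev μ k l))).comp (hc n))))
  · intro z hz
    refine ⟨fun n _ => (hz.1 n).1, hz.2, (hz.1 0).2.2.trans ?_⟩
    simpa [HH] using HH_le (Nat.zero_le (lev μ k (z.1 0)))

theorem ZZ_anc {z : (ℕ → ℕ) × ℝ} (hz : z ∈ ZZ μ k) {r n : ℕ} (h : r ≤ n) :
    anc μ k r (z.1 n) = z.1 r := by
  induction n, h using Nat.le_induction with
  | base => exact anc_of_le μ k (hz.1 r).1
  | succ n hn ih => rw [← anc_anc μ k hn, (hz.1 n).2.1, ih]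

def cd (l : ℕ) : ℕ → ℕ := fun n => anc μ k n l

theorem cd_mem {l : ℕ} {s : ℝ} (h0 : 0 ≤ s) (h : s ≤ HH (lev μ k l)) : (cd μ k l, s) ∈ ZZ μ k :=
  ⟨fun n => ⟨anc_le μ k n l, anc_anc μ k (Nat.le_succ n) l, h.trans (HH_le (lev_anc μ k n l))⟩, h0⟩

theorem cd_inj {l l' : ℕ} (h : cd μ k l = cd μ k l') : l = l' := by
  have := congrFun h (max l l')
  simpa only [cd, anc_of_le μ k (le_max_left l l'), anc_of_le μ k (le_max_right l l')] using this

noncomputable def φ (l : ℕ) : ℝ :=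
  if l % 2 = 1 then HH (lev μ k l) else HH (max (max (lev μ k l) (lev μ k (l + 1))) l + 1)

theorem φ1 (t : ℕ) : φ μ k (2 * t + 1) = HH (lev μ k (2 * t + 1)) := by
  unfold φ; rw [if_pos (by omega)]

theorem φ2 (t : ℕ) : φ μ k (2 * t + 2) < HH (lev μ k (2 * t + 2)) ∧
    φ μ k (2 * t + 2) < HH (lev μ k (2 * t + 2 + 1)) ∧ φ μ k (2 * t + 2) < HH t := by
  unfold φ; rw [if_neg (by omega)]
  exact ⟨HH_lt (by omega), HH_lt (by omega), HH_lt (by omega)⟩

theorem φ_pos (l : ℕ) : 0 < φ μ k l := by unfold φ; split_ifs <;> exact HH_pos _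

theorem cases12 {l : ℕ} (h : 1 ≤ l) : ∃ t, l = 2 * t + 1 ∨ l = 2 * t + 2 := ⟨(l - 1) / 2, by omega⟩

theorem φ_le {l : ℕ} (h : 1 ≤ l) :
    φ μ k l ≤ HH (lev μ k l) ∧ φ μ k l ≤ HH (lev μ k (l + 1)) := by
  obtain ⟨t, rfl | rfl⟩ := cases12 h
  · rw [φ1, lev1, lev2]; exact ⟨le_rfl, le_rfl⟩
  · exact ⟨(φ2 μ k t).1.le, (φ2 μ k t).2.1.le⟩

theorem φ_ne {l : ℕ} (h : 1 ≤ l) : φ μ k l ≠ φ μ k (l + 1) := by
  obtain ⟨t, rfl | rfl⟩ := cases12 h
  · have := (φ2 μ k t).1
    rw [lev2, ← lev1, ← φ1] at this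
    exact this.ne'
  · have := (φ2 μ k t).2.1
    rw [show 2 * t + 2 + 1 = 2 * (t + 1) + 1 by ring, ← φ1] at this
    exact this.ne

def PP (z w : (ℕ → ℕ) × ℝ) : Prop :=
  ∃ l, 1 ≤ l ∧ z = (cd μ k l, φ μ k l) ∧ w = (cd μ k (l + 1), φ μ k l)

def Rel (z w : (ℕ → ℕ) × ℝ) : Prop := z = w ∨ (z.2 = 0 ∧ w.2 = 0) ∨ PP μ k z w ∨ PP μ k w z

theorem PP_pos {z w : (ℕ → ℕ) × ℝ} (h : PP μ k z w) : z.2 ≠ 0 ∧ w.2 ≠ 0 ∧ z.2 = w.2 := by
  obtain ⟨l, -, rfl, rfl⟩ := h
  exact ⟨(φ_pos μ k l).ne', (φ_pos μ k l).ne', rfl⟩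

theorem Rel_snd {z w : (ℕ → ℕ) × ℝ} (h : Rel μ k z w) : z.2 = w.2 := by
  rcases h with rfl | h | h | h
  exacts [rfl, h.1.trans h.2.symm, (PP_pos μ k h).2.2, (PP_pos μ k h).2.2.symm]

theorem Rel_equiv : Equivalence (Rel μ k) := by
  have h1 : ∀ z w w', PP μ k z w → PP μ k z w' → w = w' := by
    rintro z w w' ⟨l, -, rfl, rfl⟩ ⟨l', -, h, rfl⟩
    rw [cd_inj μ k (congrArg Prod.fst h)]
  have h2 : ∀ z z' w, PP μ k z w → PP μ k z' w → z = z' := by
    rintro z z' w ⟨l, -, rfl, rfl⟩ ⟨l', -, rfl, h⟩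
    have := cd_inj μ k (congrArg Prod.fst h)
    rw [show l = l' by omega]
  have h3 : ∀ z w w', PP μ k z w → PP μ k w w' → False := by
    rintro z w w' ⟨l, hl, rfl, rfl⟩ ⟨l', -, h, rfl⟩
    obtain rfl := cd_inj μ k (congrArg Prod.fst h)
    exact φ_ne μ k hl (congrArg Prod.snd h)
  refine ⟨fun _ => Or.inl rfl, ?_, ?_⟩
  · rintro z w (h | h | h | h)
    exacts [Or.inl h.symm, Or.inr (Or.inl h.symm), Or.inr (Or.inr (Or.inr h)),
      Or.inr (Or.inr (Or.inl h))]
  · rintro x y z (rfl | h | h | h) h'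
    · exact h'
    · exact Or.inr (Or.inl ⟨h.1, (Rel_snd μ k h').symm.trans h.2⟩)
    · rcases h' with rfl | h' | h' | h'
      exacts [Or.inr (Or.inr (Or.inl h)), absurd h'.1 (PP_pos μ k h).2.1, (h3 _ _ _ h h').elim,
        Or.inl (h2 _ _ _ h h')]
    · rcases h' with rfl | h' | h' | h'
      exacts [Or.inr (Or.inr (Or.inr h)), absurd h'.1 (PP_pos μ k h).1, Or.inl (h1 _ _ _ h h'),
        (h3 _ _ _ h' h).elim]

theorem closed_aux {Y : Type} [TopologicalSpace Y] [T1Space Y] {D : Set Y} (hD : IsClosed D)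
    (u : ℕ → Y) (h : ∀ y ∉ D, ∃ N ∈ 𝓝 y, ∀ᶠ l in atTop, u l ∉ N) : IsClosed (D ∪ range u) := by
  rw [← isOpen_compl_iff, isOpen_iff_mem_nhds]
  intro y hy
  obtain ⟨N, hN, hev⟩ := h y fun h' => hy (Or.inl h')
  obtain ⟨L, hL⟩ := eventually_atTop.1 hev
  have hf : IsClosed (u '' Iio L) := ((finite_Iio L).image u).isClosed
  filter_upwards [hN, hD.isOpen_compl.mem_nhds fun h' => hy (Or.inl h'),
    hf.isOpen_compl.mem_nhds fun h' => hy (Or.inr (image_subset_range _ _ h'))] with a h1 h2 h3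
  rintro (h4 | ⟨l, rfl⟩)
  · exact h2 h4
  · by_cases hl : l < L
    exacts [h3 ⟨l, hl, rfl⟩, hL l (by omega) h1]

theorem Rel_closed : IsClosed {y : ((ℕ → ℕ) × ℝ) × ((ℕ → ℕ) × ℝ) | Rel μ k y.1 y.2} := by
  let D : Set (((ℕ → ℕ) × ℝ) × ((ℕ → ℕ) × ℝ)) := {y | y.1 = y.2 ∨ (y.1.2 = 0 ∧ y.2.2 = 0)}
  have hD : IsClosed D := (isClosed_eq continuous_fst continuous_snd).union
    ((isClosed_eq (by fun_prop) continuous_const).inter (isClosed_eq (by fun_prop) continuous_const))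
  let u : ℕ → ((ℕ → ℕ) × ℝ) × ((ℕ → ℕ) × ℝ) := fun l =>
    ((cd μ k (l + 1), φ μ k (l + 1)), (cd μ k (l + 1 + 1), φ μ k (l + 1)))
  have h1 : IsClosed (D ∪ range u) := by
    refine closed_aux hD u fun y hy => ?_
    by_cases h : y.1.2 = y.2.2
    · have h0 : y.1.2 ≠ 0 := fun h' => hy (Or.inr ⟨h', h ▸ h'⟩)
      have h2 : y.1.1 ≠ y.2.1 := fun h' => hy (Or.inl (Prod.ext h' h))
      obtain ⟨n, hn⟩ := Function.ne_iff.1 h2
      have ha : 0 < |y.1.2| / 2 := by positivity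
      have hc : Continuous fun a : ((ℕ → ℕ) × ℝ) × ((ℕ → ℕ) × ℝ) => |a.1.2| := by fun_prop
      refine ⟨{a | a.1.1 n ≠ a.2.1 n ∧ |y.1.2| / 2 < |a.1.2|}, IsOpen.mem_nhds
        ((isOpen_ne_fun (by fun_prop) (by fun_prop)).inter
          (isOpen_lt continuous_const hc)) ⟨hn, by linarith⟩, ?_⟩
      obtain ⟨J, hJ⟩ := HH_small ha
      refine eventually_atTop.2 ⟨2 * (n + J) + 2, fun l hl ⟨h3, h4⟩ => ?_⟩
      obtain ⟨t, ht | ht⟩ := cases12 (l := l + 1) (by omega)
      · apply h3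
        simp only [u, ht, cd]
        rw [anc1 μ k (by omega), anc2 μ k (by omega)]
      · simp only [u, ht] at h4
        rw [abs_of_pos (φ_pos μ k _)] at h4
        have := (φ2 μ k t).2.2
        have := hJ t (by omega)
        linarith
    · exact ⟨{a | a.1.2 ≠ a.2.2}, (isOpen_ne_fun (by fun_prop) (by fun_prop)).mem_nhds h,
        Eventually.of_forall fun l h => h rfl⟩
  have : {y : ((ℕ → ℕ) × ℝ) × ((ℕ → ℕ) × ℝ) | Rel μ k y.1 y.2} =
      (D ∪ range u) ∪ Prod.swap ⁻¹' (D ∪ range u) := by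
    ext ⟨z, w⟩
    constructor
    · rintro (h | h | ⟨l, hl, rfl, rfl⟩ | ⟨l, hl, rfl, rfl⟩)
      · exact Or.inl (Or.inl (Or.inl h))
      · exact Or.inl (Or.inl (Or.inr h))
      · obtain ⟨l, rfl⟩ : ∃ l', l = l' + 1 := ⟨l - 1, by omega⟩
        exact Or.inl (Or.inr ⟨l, rfl⟩)
      · obtain ⟨l, rfl⟩ : ∃ l', l = l' + 1 := ⟨l - 1, by omega⟩
        exact Or.inr (Or.inr ⟨l, rfl⟩)
    · rintro (((h | h) | ⟨l, h⟩) | ((h | h) | ⟨l, h⟩))
      · exact Or.inl h
      · exact Or.inr (Or.inl h)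
      · exact Or.inr (Or.inr (Or.inl ⟨l + 1, by omega, (congrArg Prod.fst h).symm,
          (congrArg Prod.snd h).symm⟩))
      · exact Or.inl h.symm
      · exact Or.inr (Or.inl h.symm)
      · exact Or.inr (Or.inr (Or.inr ⟨l + 1, by omega, (congrArg Prod.fst h).symm,
          (congrArg Prod.snd h).symm⟩))
  rw [this]
  exact h1.union (h1.preimage continuous_swap)

/-- open sets contain boxes -/
theorem box {O : Set ((ℕ → ℕ) × ℝ)} (hO : IsOpen O) {z : (ℕ → ℕ) × ℝ} (hz : z ∈ ZZ μ k)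
    (hzO : z ∈ O) : ∃ r η, 0 < η ∧ ∀ w ∈ ZZ μ k, w.1 r = z.1 r → |w.2 - z.2| < η → w ∈ O := by
  obtain ⟨U, hU, V, hV, hUV⟩ := mem_nhds_prod_iff.1 (hO.mem_nhds hzO)
  obtain ⟨η, hη, hηV⟩ := Metric.mem_nhds_iff.1 hV
  rw [nhds_pi, Filter.mem_pi] at hU
  obtain ⟨I, hI, t, ht, htU⟩ := hU
  obtain ⟨r, hr⟩ := hI.bddAbove
  refine ⟨r, η, hη, fun w hw h1 h2 => hUV ⟨htU fun i hi => ?_, hηV h2⟩⟩
  rw [← ZZ_anc μ k hw (hr hi), h1, ZZ_anc μ k hz (hr hi)]
  exact mem_of_mem_nhds (ht i)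


def S1 : Prop := ∀ m j, 1 ≤ j → ∃ T, ∀ t ≥ T, k t < j →
  ∃ u > t, μ u = m ∧ k u = j ∧ ∀ r, t < r → r ≤ u → j ≤ k r

def S2 : Prop := ∀ T, ∃ t ≥ T, k t = 0

theorem pa_eq {u m j : ℕ} (h1 : μ u = m) (h2 : k u = j) (hj : 1 ≤ j) (hm : m ≤ 2 * u) :
    pa μ k u = m := by
  unfold pa; rw [if_pos ⟨by omega, by omega⟩, h1]

theorem ZA (h1 : S1 μ k) (h2 : S2 k) {F G : Set ((ℕ → ℕ) × ℝ)} (hF : IsClosed F)
    (hG : IsClosed G) {δ : ℝ} (hδ : 0 < δ) (hcov : ∀ z ∈ ZZ μ k, z.2 < δ → z ∈ F ∪ G)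
    (hdis : ∀ z ∈ ZZ μ k, 0 < z.2 → z.2 < δ → z ∈ F → z ∉ G)
    (hsat : ∀ l, 1 ≤ l → ((cd μ k l, φ μ k l) ∈ F ↔ (cd μ k (l + 1), φ μ k l) ∈ F)) :
    (∀ z ∈ ZZ μ k, 0 < z.2 → z.2 < δ → z ∈ F) ∨ (∀ z ∈ ZZ μ k, 0 < z.2 → z.2 < δ → z ∈ G) := by
  let Sg : ℕ → Set ((ℕ → ℕ) × ℝ) := fun l =>
    (fun s => (cd μ k l, s)) '' (Ioc 0 (HH (lev μ k l)) ∩ Iio δ)
  have hSg : ∀ l, Sg l ⊆ F ∨ Sg l ⊆ G := by
    intro l
    refine isPreconnected_iff_subset_of_disjoint_closed.1
      ((ordConnected_Ioc.inter ordConnected_Iio).isPreconnected.image _ (by fun_prop)) F G hF hG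
      ?_ (eq_empty_iff_forall_notMem.2 ?_)
    · rintro _ ⟨s, hs, rfl⟩
      exact hcov _ (cd_mem μ k hs.1.1.le hs.1.2) hs.2
    · rintro _ ⟨⟨s, hs, rfl⟩, h3, h4⟩
      exact hdis _ (cd_mem μ k hs.1.1.le hs.1.2) hs.1.1 hs.2 h3 h4
  have hpt : ∀ l s, 0 < s → s ≤ HH (lev μ k l) → s < δ → (Sg l ⊆ F ↔ (cd μ k l, s) ∈ F) := by
    intro l s a b c
    refine ⟨fun h => h ⟨s, ⟨⟨a, b⟩, c⟩, rfl⟩, fun h => (hSg l).resolve_right fun h' => ?_⟩
    exact hdis _ (cd_mem μ k a.le b) a c h (h' ⟨s, ⟨⟨a, b⟩, c⟩, rfl⟩)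
  have hlink : ∀ l, 1 ≤ l → φ μ k l < δ → (Sg l ⊆ F ↔ Sg (l + 1) ⊆ F) := by
    intro l hl h
    rw [hpt l _ (φ_pos μ k l) (φ_le μ k hl).1 h, hpt (l + 1) _ (φ_pos μ k l) (φ_le μ k hl).2 h]
    exact hsat l hl
  obtain ⟨J, hJ⟩ := HH_small hδ
  have hrun : ∀ t u, J ≤ t → t + 1 ≤ u → (∀ r, t < r → r ≤ u → J ≤ k r) →
      (Sg (2 * u + 1) ⊆ F ↔ Sg (2 * (t + 1) + 1) ⊆ F) := by
    intro t u ht htu
    induction u, htu using Nat.le_induction with
    | base => intro _; rfl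
    | succ u hu ih =>
      intro h
      rw [← ih fun r a b => h r a (by omega), hlink (2 * u + 1) (by omega) (by
        rw [φ1, lev1]; exact hJ _ ((h u (by omega) (by omega)).trans (le_max_left _ _))),
        hlink (2 * u + 1 + 1) (by omega) ((φ2 μ k u).2.2.trans (hJ u (by omega)))]
      rfl
  have hchild : ∀ l j, J ≤ j → 1 ≤ j → lev μ k l ≤ j → ∃ r, ∀ u ≥ r, μ u = l → k u = j →
      (Sg (2 * u + 1) ⊆ F ↔ Sg l ⊆ F) := by
    intro l j hj hj1 hl
    have hz := cd_mem μ k (HH_pos j).le (HH_le hl)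
    have aux : ∀ O : Set ((ℕ → ℕ) × ℝ), IsOpen O → (cd μ k l, HH j) ∈ O → ∃ r, ∀ u ≥ r, μ u = l →
        k u = j → HH j ≤ HH (lev μ k (2 * u + 1)) ∧ (cd μ k (2 * u + 1), HH j) ∈ O := by
      intro O hO hzO
      obtain ⟨r, η, hη, hb⟩ := box μ k hO hz hzO
      refine ⟨r + l, fun u hu a b => ?_⟩
      have hp := pa_eq μ k a b hj1 (by omega)
      have h3 : HH j ≤ HH (lev μ k (2 * u + 1)) := by
        rw [lev1, hp, b, max_eq_left hl]
      refine ⟨h3, hb _ (cd_mem μ k (HH_pos j).le h3) ?_ (by simpa using hη)⟩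
      simp only [cd]
      rw [anc1 μ k (by omega), hp]
    rw [hpt l _ (HH_pos j) (HH_le hl) (hJ j hj)]
    by_cases h : (cd μ k l, HH j) ∈ F
    · obtain ⟨r, hr⟩ := aux Gᶜ hG.isOpen_compl (hdis _ hz (HH_pos j) (hJ j hj) h)
      refine ⟨r, fun u hu a b => ?_⟩
      obtain ⟨h3, h4⟩ := hr u hu a b
      rw [hpt _ _ (HH_pos j) h3 (hJ j hj)]
      exact iff_of_true ((hcov _ (cd_mem μ k (HH_pos j).le h3) (hJ j hj)).resolve_right h4) h
    · obtain ⟨r, hr⟩ := aux Fᶜ hF.isOpen_compl h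
      refine ⟨r, fun u hu a b => ?_⟩
      obtain ⟨h3, h4⟩ := hr u hu a b
      rw [hpt _ _ (HH_pos j) h3 (hJ j hj)]
      exact iff_of_false h4 h
  have hall : ∀ l l', Sg l ⊆ F ↔ Sg l' ⊆ F := by
    intro l l'
    obtain ⟨j, hj1, hj2, hj3, hj4⟩ : ∃ j, J ≤ j ∧ 1 ≤ j ∧ lev μ k l ≤ j ∧ lev μ k l' ≤ j :=
      ⟨J + 1 + lev μ k l + lev μ k l', by omega, by omega, by omega, by omega⟩
    obtain ⟨r, hr⟩ := hchild l j hj1 hj2 hj3
    obtain ⟨r', hr'⟩ := hchild l' j hj1 hj2 hj4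
    obtain ⟨T, hT⟩ := h1 l j hj2
    obtain ⟨T', hT'⟩ := h1 l' j hj2
    obtain ⟨t, ht, hk⟩ := h2 (r + r' + T + T' + J)
    obtain ⟨u, a1, a2, a3, a4⟩ := hT t (by omega) (by omega)
    obtain ⟨u', b1, b2, b3, b4⟩ := hT' t (by omega) (by omega)
    rw [← hr u (by omega) a2 a3, ← hr' u' (by omega) b2 b3,
      hrun t u (by omega) a1 fun r a b => hj1.trans (a4 r a b),
      hrun t u' (by omega) b1 fun r a b => hj1.trans (b4 r a b)]
  have hden : ∀ F : Set ((ℕ → ℕ) × ℝ), IsClosed F → (∀ l, Sg l ⊆ F) →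
      ∀ z ∈ ZZ μ k, 0 < z.2 → z.2 < δ → z ∈ F := by
    intro F hF h z hz a b
    by_contra hzF
    obtain ⟨r, η, hη, hb⟩ := box μ k hF.isOpen_compl hz hzF
    exact hb _ (cd_mem μ k hz.2 (hz.1 r).2.2) (anc_of_le μ k (hz.1 r).1) (by simpa using hη)
      (h (z.1 r) ⟨z.2, ⟨⟨a, (hz.1 r).2.2⟩, b⟩, rfl⟩)
  by_cases h : Sg 0 ⊆ F
  · exact Or.inl (hden F hF fun l => (hall l 0).2 h)
  · exact Or.inr (hden G hG fun l => (hSg l).resolve_left fun h' => h ((hall l 0).1 h'))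

/-- box data at small height -/
theorem data {O : Set ((ℕ → ℕ) × ℝ)} (hO : IsOpen O)
    (hacc : ∀ ε > 0, ∃ z ∈ ZZ μ k, z ∈ O ∧ 0 < z.2 ∧ z.2 < ε) (J : ℕ) :
    ∃ m r j ξ, J ≤ j ∧ 0 < ξ ∧ ξ < HH j ∧ lev μ k m ≤ j ∧ m ≤ r ∧
      ∀ c, (c, ξ) ∈ ZZ μ k → c r = m → (c, ξ) ∈ O := by
  obtain ⟨z, hz, hzO, h0, h1⟩ := hacc _ (HH_pos J)
  obtain ⟨r, η, hη, hb⟩ := box μ k hO hz hzO
  have hm : 0 < min η z.2 := lt_min hη h0
  have hm1 := min_le_left η z.2
  have hm2 := min_le_right η z.2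
  refine ⟨z.1 r, r, max J (lev μ k (z.1 r)), z.2 - min η z.2 / 2, le_max_left _ _, by linarith, ?_,
    le_max_right _ _, (hz.1 r).1, fun c hc h => hb _ hc h ?_⟩
  · have := (hz.1 r).2.2
    rcases max_cases J (lev μ k (z.1 r)) with h | h <;> rw [h.1] <;> linarith
  · simp only
    rw [abs_lt]; constructor <;> linarith


def occ (m j u : ℕ) : Prop := ∃ v < u, μ v = m ∧ k v = j ∧ ∀ r, v < r → r < u → j ≤ k r

theorem occ_succ {m j t : ℕ} (h : j ≤ k t) (h' : ¬ (μ t = m ∧ k t = j)) :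
    occ μ k m j (t + 1) ↔ occ μ k m j t := by
  constructor
  · rintro ⟨v, hv, a, b, c⟩
    have : v ≠ t := by rintro rfl; exact h' ⟨a, b⟩
    exact ⟨v, by omega, a, b, fun r h1 h2 => c r h1 (by omega)⟩
  · rintro ⟨v, hv, a, b, c⟩
    refine ⟨v, by omega, a, b, fun r h1 h2 => ?_⟩
    by_cases hr : r = t
    exacts [hr ▸ h, c r h1 (by omega)]

theorem occ_det {m j t : ℕ} (h : k t < j) : ¬ occ μ k m j (t + 1) := by
  rintro ⟨v, hv, a, b, c⟩
  have : v ≠ t := by rintro rfl; omega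
  have := c t (by omega) (by omega)
  omega

structure Stage where
  T : ℕ
  j : ℕ
  m : ℕ
  m2 : ℕ
  r : ℕ
  U : ℕ
  ξ : ℝ
  ξ' : ℝ

noncomputable def Stage.τ (s : Stage) : ℝ := (HH s.j + HH (s.j - 1)) / 2

structure Good (O O' : Set ((ℕ → ℕ) × ℝ)) (s : Stage) : Prop where
  j1 : 1 ≤ s.j
  kT : k s.T = 0
  ξ0 : 0 < s.ξ
  ξj : s.ξ < HH s.j
  lm : lev μ k s.m ≤ s.j
  lm2 : lev μ k s.m2 ≤ s.j
  am : anc μ k s.r s.m2 = s.m
  mr : s.m ≤ s.r
  rT : s.r ≤ 2 * s.T
  m2T : s.m2 ≤ 2 * s.T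
  Tξ : HH s.T ≤ s.ξ
  bx : ∀ c, (c, s.ξ) ∈ ZZ μ k → c s.r = s.m → (c, s.ξ) ∈ O
  r1 : ∀ t ≥ s.T, k t < s.j → ∃ u > t, μ u = s.m ∧ k u = s.j ∧ ∀ r, t < r → r ≤ u → s.j ≤ k r
  r2 : ∀ t ≥ s.T, k t < s.j → ∃ u > t, μ u = s.m2 ∧ k u = s.j ∧ ∀ r, t < r → r ≤ u → s.j ≤ k r
  TU : s.T < s.U
  kU : s.j ≤ k s.U
  one : (occ μ k s.m s.j s.U ∨ occ μ k s.m2 s.j s.U) ∧ ¬ (occ μ k s.m s.j s.U ∧ occ μ k s.m2 s.j s.U)
  ξ'0 : 0 < s.ξ'
  ξ'j : s.ξ' < HH s.j
  mem : (cd μ k (2 * s.U + 1), s.ξ') ∈ ZZ μ k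
  mem' : (cd μ k (2 * s.U + 1), s.ξ') ∈ O'

theorem stage_ex (h1 : S1 μ k) (h2 : S2 k) {O O' : Set ((ℕ → ℕ) × ℝ)} (hO : IsOpen O)
    (hO' : IsOpen O') (hacc : ∀ ε > 0, ∃ z ∈ ZZ μ k, z ∈ O ∧ 0 < z.2 ∧ z.2 < ε)
    (hacc' : ∀ ε > 0, ∃ z ∈ ZZ μ k, z ∈ O' ∧ 0 < z.2 ∧ z.2 < ε) (T0 J : ℕ) :
    ∃ s : Stage, Good μ k O O' s ∧ T0 ≤ s.T ∧ J ≤ s.j := by
  classical
  obtain ⟨m, r, j, ξ, a1, a2, a3, a4, a5, a6⟩ := data μ k hO hacc (J + 1)
  obtain ⟨m', r', j', ξ', b1, b2, b3, b4, b5, b6⟩ := data μ k hO' hacc' (j + 1)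
  obtain ⟨T1, hT1⟩ := h1 m j (by omega)
  obtain ⟨t0, ht0, hk0⟩ := h2 (T1 + r)
  obtain ⟨u0, c1, c2, c3, -⟩ := hT1 t0 (by omega) (by omega)
  have hp0 := pa_eq μ k c2 c3 (by omega) (by omega)
  obtain ⟨T2, hT2⟩ := h1 (2 * u0 + 1) j (by omega)
  obtain ⟨T3, hT3⟩ := h1 m' j' (by omega)
  obtain ⟨T4, hT4⟩ := HH_small a2
  obtain ⟨T, hT, hk⟩ := h2 (T0 + T1 + T2 + T3 + T4 + r + r' + u0 + 1)
  obtain ⟨ua, d1, d2, d3, d4⟩ := hT1 T (by omega) (by omega)
  have hex : ∃ v, T < v ∧ (μ v = m ∨ μ v = 2 * u0 + 1) ∧ k v = j := ⟨ua, d1, Or.inl d2, d3⟩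
  obtain ⟨e1, e2, e3⟩ := Nat.find_spec hex
  have e4 : Nat.find hex ≤ ua := Nat.find_min' hex ⟨d1, Or.inl d2, d3⟩
  have e5 : ∀ v < Nat.find hex, ¬ (T < v ∧ (μ v = m ∨ μ v = 2 * u0 + 1) ∧ k v = j) :=
    fun v hv => Nat.find_min hex hv
  generalize Nat.find hex = u1 at e1 e2 e3 e4 e5
  obtain ⟨U, f1, f2, f3, f4⟩ := hT3 u1 (by omega) (by omega)
  have hpU := pa_eq μ k f2 f3 (by omega) (by omega)
  have hocc : ∀ x, (x = m ∨ x = 2 * u0 + 1) → (occ μ k x j U ↔ μ u1 = x) := by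
    intro x hx
    constructor
    · rintro ⟨v, g1, g2, g3, g4⟩
      have hv : T < v := by
        by_contra h
        have hne : v ≠ T := by rintro rfl; omega
        have := g4 T (by omega) (by omega)
        omega
      have h5 : ¬ v < u1 := fun h => e5 v h ⟨hv, by omega, g3⟩
      have h6 : ¬ u1 < v := fun h => by have := f4 v h (by omega); omega
      rw [show u1 = v by omega, g2]
    · intro h
      exact ⟨u1, f1, h, e3, fun r a b => by have := f4 r a b.le; omega⟩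
  have hmem : (cd μ k (2 * U + 1), ξ') ∈ ZZ μ k :=
    cd_mem μ k b2.le (by rw [lev1, hpU, f3, max_eq_left b4]; exact b3.le)
  refine ⟨⟨T, j, m, 2 * u0 + 1, r, U, ξ, ξ'⟩, ⟨by simp only; omega, hk, a2, a3, a4, ?_, ?_, a5,
    by simp only; omega, by simp only; omega, (hT4 T (by omega)).le, a6,
    fun t ht => hT1 t (by simp only at ht; omega), fun t ht => hT2 t (by simp only at ht; omega),
    by simp only; omega, by simp only; omega, ?_, b2, b3.trans (HH_lt (by simp only; omega)), hmem,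
    b6 _ hmem ?_⟩, by simp only; omega, by simp only; omega⟩
  · simp only
    rw [lev1, hp0, c3, max_eq_left a4]
  · simp only
    rw [anc1 μ k (by omega), hp0, anc_of_le μ k a5]
  · simp only
    rw [hocc m (Or.inl rfl), hocc _ (Or.inr rfl)]
    omega
  · simp only [cd]
    rw [anc1 μ k (by omega), hpU, anc_of_le μ k b5]

theorem det_ex (h2 : S2 k) {j : ℕ} (t : ℕ) : ∃ t', t ≤ t' ∧ k t' < max j 1 := by
  obtain ⟨t', a, b⟩ := h2 t
  exact ⟨t', a, by omega⟩

variable (h2 : S2 k) (s : Stage) (bit : Bool) (g : ℕ → ℝ → Bool)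

noncomputable def DD (t : ℕ) : Bool := g (anc μ k (2 * s.T) (2 * t + 1)) s.τ

open Classical in
noncomputable def βc (t : ℕ) : Bool :=
  if occ μ k s.m s.j t ∧ occ μ k s.m2 s.j t then DD μ k s g (Nat.find (det_ex k h2 (j := s.j) t))
  else if occ μ k s.m s.j t ∨ occ μ k s.m2 s.j t then bit
  else DD μ k s g (Nat.findGreatest (fun t' => k t' < s.j) (t - 1))

open Classical in
noncomputable def nextG (l : ℕ) (x : ℝ) : Bool :=
  if l ≤ 2 * s.T then g l x else if s.τ < x then g (anc μ k (2 * s.T) l) x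
  else if k ((l - 1) / 2) < s.j then DD μ k s g ((l - 1) / 2)
  else if l % 2 = 1 ∨ s.ξ < x then βc μ k h2 s bit g ((l - 1) / 2)
  else βc μ k h2 s bit g ((l - 1) / 2 + 1)

theorem N0 {l : ℕ} (h : l ≤ 2 * s.T) : nextG μ k h2 s bit g l = g l := by
  funext x; unfold nextG; rw [if_pos h]

theorem N1 (l : ℕ) {x : ℝ} (h : s.τ < x) :
    nextG μ k h2 s bit g l x = g (anc μ k (2 * s.T) l) x := by
  unfold nextG
  split_ifs with h'
  · rw [anc_of_le μ k h']
  · rfl

theorem NL {t : ℕ} (ht : s.T ≤ t) {x : ℝ} (h : x ≤ s.τ) : nextG μ k h2 s bit g (2 * t + 1) x =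
    if k t < s.j then DD μ k s g t else βc μ k h2 s bit g t := by
  unfold nextG
  rw [if_neg (by omega), if_neg (not_lt.2 h), show (2 * t + 1 - 1) / 2 = t by omega,
    if_pos (Or.inl (by omega) : (2 * t + 1) % 2 = 1 ∨ s.ξ < x)]

theorem NR {t : ℕ} (ht : s.T ≤ t) {x : ℝ} (h : x ≤ s.τ) : nextG μ k h2 s bit g (2 * t + 2) x =
    if k t < s.j then DD μ k s g t else if s.ξ < x then βc μ k h2 s bit g t
      else βc μ k h2 s bit g (t + 1) := by
  unfold nextG
  rw [if_neg (by omega), if_neg (not_lt.2 h), show (2 * t + 2 - 1) / 2 = t by omega]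
  have : ¬ (2 * t + 2) % 2 = 1 := by omega
  simp only [this, false_or]

theorem β_succ {t : ℕ} (ht : 1 ≤ t) (hj : 1 ≤ s.j) (h : s.j ≤ k t)
    (ha : ¬ (μ t = s.m ∧ k t = s.j)) (hb : ¬ (μ t = s.m2 ∧ k t = s.j)) :
    βc μ k h2 s bit g (t + 1) = βc μ k h2 s bit g t := by
  classical
  have e1 : Nat.find (det_ex k h2 (j := s.j) (t + 1)) = Nat.find (det_ex k h2 (j := s.j) t) := by
    apply le_antisymm
    · apply Nat.find_min'
      obtain ⟨a, b⟩ := Nat.find_spec (det_ex k h2 (j := s.j) t)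
      refine ⟨lt_of_le_of_ne a fun h' => ?_, b⟩
      rw [← h'] at b
      omega
    · apply Nat.find_min'
      obtain ⟨a, b⟩ := Nat.find_spec (det_ex k h2 (j := s.j) (t + 1))
      exact ⟨by omega, b⟩
  have e2 : Nat.findGreatest (fun t' => k t' < s.j) (t + 1 - 1) =
      Nat.findGreatest (fun t' => k t' < s.j) (t - 1) := by
    obtain ⟨t, rfl⟩ : ∃ t', t = t' + 1 := ⟨t - 1, by omega⟩
    exact Nat.findGreatest_of_not (by omega)
  unfold βc
  simp only [occ_succ μ k h ha, occ_succ μ k h hb, e1, e2]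

variable {O O' : Set ((ℕ → ℕ) × ℝ)} (hs : Good μ k O O' s)
include hs

theorem τ_bounds : HH s.j < s.τ ∧ s.τ < HH (s.j - 1) := by
  have := HH_lt (show s.j - 1 < s.j by have := hs.j1; omega)
  unfold Stage.τ
  constructor <;> linarith

theorem β_after {t : ℕ} (h : k t < s.j) : βc μ k h2 s bit g (t + 1) = DD μ k s g t := by
  classical
  unfold βc
  rw [if_neg fun h' => occ_det μ k h h'.1, if_neg fun h' => h'.elim (occ_det μ k h) (occ_det μ k h)]
  congr 1
  exact Nat.findGreatest_eq (P := fun t' => k t' < s.j) h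

theorem β_before {t : ℕ} (ht : s.T < t) (h : k t < s.j) : βc μ k h2 s bit g t = DD μ k s g t := by
  classical
  have hT : k s.T < s.j := by have := hs.kT; have := hs.j1; omega
  have a1 : s.T ≤ Nat.findGreatest (fun t' => k t' < s.j) (t - 1) :=
    Nat.le_findGreatest (by omega) hT
  have a2 : k (Nat.findGreatest (fun t' => k t' < s.j) (t - 1)) < s.j :=
    Nat.findGreatest_spec (P := fun t' => k t' < s.j) (show s.T ≤ t - 1 by omega) hT
  have a3 : Nat.findGreatest (fun t' => k t' < s.j) (t - 1) ≤ t - 1 := Nat.findGreatest_le _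
  have a4 : ∀ r, Nat.findGreatest (fun t' => k t' < s.j) (t - 1) < r → r ≤ t - 1 → ¬ k r < s.j :=
    fun r b c => Nat.findGreatest_is_greatest (P := fun t' => k t' < s.j) b c
  generalize Nat.findGreatest (fun t' => k t' < s.j) (t - 1) = d at a1 a2 a3 a4
  have aux : ∀ x, (∃ u > d, μ u = x ∧ k u = s.j ∧ ∀ r, d < r → r ≤ u → s.j ≤ k r) →
      occ μ k x s.j t := by
    rintro x ⟨u, b1, b2, b3, b4⟩
    have : u < t := by
      by_contra h'
      have := b4 t (by omega) (by omega)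
      omega
    exact ⟨u, this, b2, b3, fun r c1 c2 => not_lt.1 (a4 r (by omega) (by omega))⟩
  unfold βc
  rw [if_pos ⟨aux _ (hs.r1 d a1 a2), aux _ (hs.r2 d a1 a2)⟩]
  congr 1
  exact (Nat.find_eq_iff _).2 ⟨⟨le_rfl, by omega⟩, fun n hn h' => by omega⟩

theorem β_jump {t : ℕ} (ht : s.T ≤ t) (h : ¬ k t < s.j)
    (hne : βc μ k h2 s bit g (t + 1) ≠ βc μ k h2 s bit g t) :
    lev μ k (2 * t + 2) = s.j ∧ anc μ k s.r (2 * t + 2) = s.m := by
  have h1 := hs.j1
  have hT := hs.kT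
  have ht1 : 1 ≤ t := by
    by_contra h'
    have : t = s.T := by omega
    rw [this] at h; omega
  have h3 := hs.rT
  have h4 := hs.mr
  have h5 := hs.m2T
  by_cases ha : μ t = s.m ∧ k t = s.j
  · have hp := pa_eq μ k ha.1 ha.2 h1 (by omega)
    rw [lev2, anc2 μ k (by omega), hp, ha.2, max_eq_left hs.lm, anc_of_le μ k h4]
    exact ⟨rfl, rfl⟩
  · by_cases hb : μ t = s.m2 ∧ k t = s.j
    · have hp := pa_eq μ k hb.1 hb.2 h1 (by omega)
      rw [lev2, anc2 μ k (by omega), hp, hb.2, max_eq_left hs.lm2, hs.am]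
      exact ⟨rfl, rfl⟩
    · exact absurd (β_succ μ k h2 s bit g ht1 h1 (not_lt.1 h) ha hb) hne

theorem N2 {t : ℕ} (ht : s.T ≤ t) : nextG μ k h2 s bit g (2 * t + 1) (φ μ k (2 * t + 1)) =
    nextG μ k h2 s bit g (2 * t + 2) (φ μ k (2 * t + 1)) := by
  by_cases h : s.τ < φ μ k (2 * t + 1)
  · rw [N1 μ k h2 s bit g _ h, N1 μ k h2 s bit g _ h, anc1 μ k (by omega), anc2 μ k (by omega)]
  · rw [NL μ k h2 s bit g ht (not_lt.1 h), NR μ k h2 s bit g ht (not_lt.1 h)]
    split_ifs with a b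
    · rfl
    · rfl
    · by_contra hne
      have := (β_jump μ k h2 s bit g hs ht a (Ne.symm hne)).1
      rw [φ1, lev1, ← lev2, this] at b
      exact b hs.ξj

theorem N3 {t : ℕ} (ht : s.T ≤ t) : nextG μ k h2 s bit g (2 * t + 2) (φ μ k (2 * t + 2)) =
    nextG μ k h2 s bit g (2 * t + 2 + 1) (φ μ k (2 * t + 2)) := by
  have a1 : φ μ k (2 * t + 2) < s.ξ := ((φ2 μ k t).2.2.trans_le (HH_le ht)).trans_le hs.Tξ
  have a2 : φ μ k (2 * t + 2) ≤ s.τ := (a1.trans (hs.ξj.trans (τ_bounds μ k s hs).1)).le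
  rw [show 2 * t + 2 + 1 = 2 * (t + 1) + 1 by ring, NR μ k h2 s bit g ht a2,
    NL μ k h2 s bit g (by omega) a2, if_neg (not_lt.2 a1.le)]
  split_ifs with a b b
  · obtain ⟨u, c1, -, -, c4⟩ := hs.r1 t ht a
    have := c4 (t + 1) (by omega) (by omega)
    omega
  · exact (β_after μ k h2 s bit g hs a).symm
  · exact β_before μ k h2 s bit g hs (by omega) b
  · rfl

theorem N4 {t : ℕ} (ht : s.T ≤ t) (hk : k t = 0) (hg : ∀ x, g 0 x = false) (x : ℝ) :
    nextG μ k h2 s bit g (2 * t + 1) x = false := by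
  have hp : pa μ k t = 0 := by unfold pa; rw [if_neg (by omega)]
  have ha : anc μ k (2 * s.T) (2 * t + 1) = 0 := by
    rw [anc1 μ k (by omega), hp, anc_of_le μ k (Nat.zero_le _)]
  by_cases h : s.τ < x
  · rw [N1 μ k h2 s bit g _ h, ha, hg]
  · rw [NL μ k h2 s bit g ht (not_lt.1 h), if_pos (by have := hs.j1; omega), DD, ha, hg]

theorem N6 : nextG μ k h2 s bit g (2 * s.U + 1) s.ξ' = bit := by
  rw [NL μ k h2 s bit g hs.TU.le (hs.ξ'j.trans (τ_bounds μ k s hs).1).le, if_neg (not_lt.2 hs.kU)]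
  unfold βc
  rw [if_neg hs.one.2, if_pos hs.one.1]

theorem N5 (E : ℕ → ℝ → Prop) (hE1 : ∀ l x, E (anc μ k (2 * s.T) l) x → E l x)
    (hE2 : ∀ l, ¬ E l s.τ)
    (hg : ∀ l x, l ≤ 2 * s.T → 0 < x → x ≤ HH (lev μ k l) → (∀ᶠ y in 𝓝 x, g l y = g l x) ∨ E l x)
    (l : ℕ) (x : ℝ) (h0 : 0 < x) (hx : x ≤ HH (lev μ k l)) :
    (∀ᶠ y in 𝓝 x, nextG μ k h2 s bit g l y = nextG μ k h2 s bit g l x) ∨ E l x ∨
      (x = s.ξ ∧ anc μ k s.r l = s.m) := by
  by_cases hl : l ≤ 2 * s.T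
  · rw [N0 μ k h2 s bit g hl]
    exact (hg l x hl h0 hx).imp_right Or.inl
  have hga := hg _ x (anc_le μ k _ l) h0 (hx.trans (HH_le (lev_anc μ k _ l)))
  obtain ⟨b1, b2⟩ := τ_bounds μ k s hs
  obtain ⟨t, ht⟩ := cases12 (l := l) (by omega)
  have htT : s.T ≤ t := by omega
  have hlev : lev μ k l = max (k t) (lev μ k (pa μ k t)) := by
    rcases ht with rfl | rfl
    exacts [lev1 μ k t, lev2 μ k t]
  have hanc : anc μ k (2 * s.T) l = anc μ k (2 * s.T) (2 * t + 1) := by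
    rcases ht with rfl | rfl
    · rfl
    · rw [anc1 μ k (by omega), anc2 μ k (by omega)]
  have hdet : k t < s.j → ∀ y ≤ s.τ, nextG μ k h2 s bit g l y = g (anc μ k (2 * s.T) l) s.τ := by
    intro hk y hy
    rw [hanc]
    rcases ht with rfl | rfl
    · rw [NL μ k h2 s bit g htT hy, if_pos hk, DD]
    · rw [NR μ k h2 s bit g htT hy, if_pos hk, DD]
  rcases lt_trichotomy s.τ x with h | h | h
  · refine hga.imp (fun h' => ?_) fun h' => Or.inl (hE1 _ _ h')
    filter_upwards [h', lt_mem_nhds h] with y a b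
    rw [N1 μ k h2 s bit g _ b, N1 μ k h2 s bit g _ h, a]
  · subst h
    have hk : k t < s.j := by
      by_contra hk
      have := HH_le (show s.j ≤ lev μ k l by rw [hlev]; omega)
      linarith
    refine Or.inl ((hga.resolve_right (hE2 _)).mono fun y hy => ?_)
    rw [hdet hk _ le_rfl]
    by_cases h : s.τ < y
    · rw [N1 μ k h2 s bit g _ h, hy]
    · exact hdet hk y (not_lt.1 h)
  · by_cases hk : k t < s.j
    · refine Or.inl ((gt_mem_nhds h).mono fun y hy => ?_)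
      rw [hdet hk y hy.le, hdet hk x h.le]
    · rcases ht with rfl | rfl
      · refine Or.inl ((gt_mem_nhds h).mono fun y hy => ?_)
        rw [NL μ k h2 s bit g htT hy.le, NL μ k h2 s bit g htT h.le]
      · rcases lt_trichotomy s.ξ x with h' | h' | h'
        · refine Or.inl (((gt_mem_nhds h).and (lt_mem_nhds h')).mono fun y hy => ?_)
          rw [NR μ k h2 s bit g htT hy.1.le, NR μ k h2 s bit g htT h.le, if_pos hy.2, if_pos h']
        · by_cases hne : βc μ k h2 s bit g (t + 1) = βc μ k h2 s bit g t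
          · refine Or.inl ((gt_mem_nhds h).mono fun y hy => ?_)
            rw [NR μ k h2 s bit g htT hy.le, NR μ k h2 s bit g htT h.le, hne]
            simp
          · exact Or.inr (Or.inr ⟨h'.symm, (β_jump μ k h2 s bit g hs htT hk hne).2⟩)
        · refine Or.inl (((gt_mem_nhds h).and (gt_mem_nhds h')).mono fun y hy => ?_)
          rw [NR μ k h2 s bit g htT hy.1.le, NR μ k h2 s bit g htT h.le,
            if_neg (not_lt.2 hy.2.le), if_neg (not_lt.2 h'.le)]


end Constr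

theorem ZB (μ k : ℕ → ℕ) (h1 : S1 μ k) (h2 : S2 k) {O O' : Set ((ℕ → ℕ) × ℝ)} (hO : IsOpen O)
    (hO' : IsOpen O') (hacc : ∀ ε > 0, ∃ z ∈ ZZ μ k, z ∈ O ∧ 0 < z.2 ∧ z.2 < ε)
    (hacc' : ∀ ε > 0, ∃ z ∈ ZZ μ k, z ∈ O' ∧ 0 < z.2 ∧ z.2 < ε) :
    ∃ χ : (ℕ → ℕ) × ℝ → Bool,
      (∀ l, 1 ≤ l → χ (cd μ k l, φ μ k l) = χ (cd μ k (l + 1), φ μ k l)) ∧
      (∀ z ∈ ZZ μ k, 0 < z.2 → z ∉ O → ∀ᶠ w in 𝓝 z, w ∈ ZZ μ k → χ w = χ z) ∧
      ∀ b, ∀ ε > 0, ∃ z ∈ ZZ μ k, z ∈ O' ∧ 0 < z.2 ∧ z.2 < ε ∧ χ z = b := by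
  classical
  have hstep : ∀ (i : ℕ) (s : {s // Good μ k O O' s}), ∃ s' : {s // Good μ k O O' s},
      s.1.U + 1 ≤ s'.1.T ∧ i + 1 ≤ s'.1.j ∧ s'.1.τ < s.1.ξ := by
    intro i s
    obtain ⟨J, hJ⟩ := HH_small s.2.ξ0
    obtain ⟨s', a, b, c⟩ := stage_ex μ k h1 h2 hO hO' hacc hacc' (s.1.U + 1) (J + i + 1)
    exact ⟨⟨s', a⟩, b, by simp only; omega,
      (τ_bounds μ k s' a).2.trans (hJ _ (by omega))⟩
  choose f hf using hstep
  obtain ⟨s0, hs0, -⟩ := stage_ex μ k h1 h2 hO hO' hacc hacc' 0 0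
  let ss : ℕ → {s // Good μ k O O' s} := fun i => Nat.rec ⟨s0, hs0⟩ f i
  obtain ⟨s, hs, hU, hj, hτ⟩ : ∃ s : ℕ → Stage, (∀ i, Good μ k O O' (s i)) ∧
      (∀ i, (s i).U + 1 ≤ (s (i + 1)).T) ∧ (∀ i, i + 1 ≤ (s (i + 1)).j) ∧
      ∀ i, (s (i + 1)).τ < (s i).ξ :=
    ⟨fun i => (ss i).1, fun i => (ss i).2, fun i => (hf i (ss i)).1, fun i => (hf i (ss i)).2.1,
      fun i => (hf i (ss i)).2.2⟩
  obtain ⟨G, G0, GS⟩ : ∃ G : ℕ → ℕ → ℝ → Bool, (G 0 = fun _ _ => false) ∧
      ∀ i, G (i + 1) = nextG μ k h2 (s i) (decide (i % 2 = 0)) (G i) :=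
    ⟨fun i => Nat.rec (fun _ _ => false)
      (fun i g => nextG μ k h2 (s i) (decide (i % 2 = 0)) g) i, rfl, fun _ => rfl⟩
  have hT : StrictMono fun i => (s i).T := strictMono_nat_of_lt_succ fun i => by
    have := hU i; have := (hs i).TU; omega
  have hT' : ∀ {i i'}, i ≤ i' → (s i).T ≤ (s i').T := fun h => hT.monotone h
  have hτa : Antitone fun i => (s i).τ := antitone_nat_of_succ_le fun i =>
    ((hτ i).trans ((hs i).ξj.trans (τ_bounds μ k _ (hs i)).1)).le
  have hsm : ∀ x > 0, ∃ I, ∀ i ≥ I, (s i).τ < x := by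
    intro x hx
    obtain ⟨J, hJ⟩ := HH_small hx
    refine ⟨J + 1, fun i hi => (hτa hi).trans_lt ((τ_bounds μ k _ (hs _)).2.trans (hJ _ ?_))⟩
    have := hj J
    omega
  have Gz : ∀ i x, G i 0 x = false := by
    intro i
    induction i with
    | zero => intro x; rw [G0]
    | succ i ih => intro x; rw [GS, N0 μ k h2 _ _ _ (Nat.zero_le _), ih]
  have stab : ∀ i i' l, i ≤ i' → l ≤ 2 * (s i).T → G i' l = G i l := by
    intro i i' l h hl
    induction i', h using Nat.le_induction with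
    | base => rfl
    | succ i' h ih => rw [GS, N0 μ k h2 _ _ _ (by have := hT' h; omega), ih]
  have cons : ∀ z ∈ ZZ μ k, ∀ i i', i ≤ i' → (s i).τ < z.2 →
      G i' (z.1 (2 * (s i').T)) z.2 = G i (z.1 (2 * (s i).T)) z.2 := by
    intro z hz i i' h hx
    induction i', h using Nat.le_induction with
    | base => rfl
    | succ i' h ih =>
      rw [GS, N1 μ k h2 _ _ _ _ ((hτa h).trans_lt hx),
        ZZ_anc μ k hz (by have := hT' (Nat.le_add_right i' 1); omega), ih]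
  choose! I hI using hsm
  let χ : (ℕ → ℕ) × ℝ → Bool := fun z => G (I z.2) (z.1 (2 * (s (I z.2)).T)) z.2
  have hχ : ∀ z ∈ ZZ μ k, 0 < z.2 → ∀ i, (s i).τ < z.2 → χ z = G i (z.1 (2 * (s i).T)) z.2 := by
    intro z hz h0 i hi
    rw [← cons z hz i (max i (I z.2)) (le_max_left _ _) hi,
      cons z hz (I z.2) (max i (I z.2)) (le_max_right _ _) (hI _ h0 _ le_rfl)]
  have inv2 : ∀ i, G i (2 * (s i).T) (φ μ k (2 * (s i).T)) = false := by
    intro i
    cases i with
    | zero => rw [G0]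
    | succ i =>
      have a := hU i
      have b := (hs i).TU
      obtain ⟨t, ht⟩ : ∃ t, (s (i + 1)).T = t + 1 := ⟨(s (i + 1)).T - 1, by omega⟩
      rw [GS, ht, show 2 * (t + 1) = 2 * t + 2 by ring, N3 μ k h2 _ _ _ (hs i) (by omega),
        show 2 * t + 2 + 1 = 2 * (t + 1) + 1 by ring]
      exact N4 μ k h2 _ _ _ (hs i) (by omega) (ht ▸ (hs (i + 1)).kT) (Gz i) _
  have inv : ∀ i l, 1 ≤ l → l + 1 ≤ 2 * (s i).T → G i l (φ μ k l) = G i (l + 1) (φ μ k l) := by
    intro i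
    induction i with
    | zero => intro l _ _; rw [G0]
    | succ i ih =>
      intro l hl _
      rw [GS]
      rcases lt_trichotomy l (2 * (s i).T) with h | h | h
      · rw [N0 μ k h2 _ _ _ h.le, N0 μ k h2 _ _ _ (show l + 1 ≤ _ from h), ih l hl h]
      · rw [N0 μ k h2 _ _ _ h.le, h, inv2, N4 μ k h2 _ _ _ (hs i) le_rfl (hs i).kT (Gz i)]
      · obtain ⟨t, rfl | rfl⟩ := cases12 hl
        · exact N2 μ k h2 _ _ _ (hs i) (by omega)
        · exact N3 μ k h2 _ _ _ (hs i) (by omega)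
  have lc : ∀ i l x, 0 < x → x ≤ HH (lev μ k l) → (∀ᶠ y in 𝓝 x, G i l y = G i l x) ∨
      ∃ i' < i, x = (s i').ξ ∧ anc μ k (s i').r l = (s i').m := by
    intro i
    induction i with
    | zero => intro l x _ _; left; rw [G0]; exact Eventually.of_forall fun _ => rfl
    | succ i ih =>
      intro l x h0 hx
      rw [GS]
      rcases N5 μ k h2 (s i) (decide (i % 2 = 0)) (G i) (hs i)
        (fun l x => ∃ i' < i, x = (s i').ξ ∧ anc μ k (s i').r l = (s i').m) (by
          rintro l x ⟨i', a, b, c⟩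
          refine ⟨i', a, b, ?_⟩
          rwa [anc_anc μ k (by have := (hs i').rT; have := hT' a.le; omega)] at c) (by
          rintro l ⟨i', a, b, -⟩
          exact ((hτa (show i' + 1 ≤ i from a)).trans_lt (hτ i')).ne b)
        (fun l x _ a b => ih l x a b) l x h0 hx with h | ⟨i', a, b⟩ | h
      exacts [Or.inl h, Or.inr ⟨i', by omega, b⟩, Or.inr ⟨i, by omega, h⟩]
  refine ⟨χ, fun l hl => ?_, fun z hz h0 hzO => ?_, fun b ε hε => ?_⟩
  · have hp := φ_pos μ k l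
    obtain ⟨i, a, b⟩ : ∃ i, (s i).τ < φ μ k l ∧ l + 1 ≤ 2 * (s i).T :=
      ⟨I (φ μ k l) + l + 1, hI _ hp _ (by omega), by
        have : I (φ μ k l) + l + 1 ≤ (s (I (φ μ k l) + l + 1)).T := hT.id_le _
        omega⟩
    rw [hχ _ (cd_mem μ k hp.le (φ_le μ k hl).1) hp i a,
      hχ _ (cd_mem μ k hp.le (φ_le μ k hl).2) hp i a]
    simp only [cd]
    rw [anc_of_le μ k (by omega), anc_of_le μ k b, inv i l hl b]
  · have hi := hI _ h0 _ le_rfl
    generalize I z.2 = i at hi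
    rcases lc i (z.1 (2 * (s i).T)) z.2 h0 (hz.1 _).2.2 with h | ⟨i', a, b, c⟩
    · have e1 : ∀ᶠ w : (ℕ → ℕ) × ℝ in 𝓝 z, w.1 (2 * (s i).T) = z.1 (2 * (s i).T) :=
        ((continuous_apply _).comp continuous_fst).continuousAt.eventually
          ((isOpen_discrete {z.1 (2 * (s i).T)}).mem_nhds rfl)
      filter_upwards [e1, continuous_snd.continuousAt.eventually h,
        continuous_snd.continuousAt.eventually (lt_mem_nhds hi),
        continuous_snd.continuousAt.eventually (lt_mem_nhds h0)] with w a b c d hw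
      rw [hχ w hw d i c, hχ z hz h0 i hi, a, b]
    · rw [ZZ_anc μ k hz (by have := (hs i').rT; have := hT' a.le; omega)] at c
      have : z = (z.1, (s i').ξ) := Prod.ext rfl b
      exact absurd (this ▸ (hs i').bx z.1 (this ▸ hz) c) hzO
  · obtain ⟨i, a, hb⟩ : ∃ i, (s i).τ < ε ∧ decide (i % 2 = 0) = b := by
      cases b
      · exact ⟨2 * I ε + 1, hI _ hε _ (by omega), by simp⟩
      · exact ⟨2 * I ε, hI _ hε _ (by omega), by simp⟩
    refine ⟨_, (hs i).mem, (hs i).mem', (hs i).ξ'0,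
      ((hs i).ξ'j.trans (τ_bounds μ k _ (hs i)).1).trans a, ?_⟩
    have c := hU i
    have d := hT' (show i + 1 ≤ I (s i).ξ' + i + 1 by omega)
    rw [hχ _ (hs i).mem (hs i).ξ'0 (I (s i).ξ' + i + 1) (hI _ (hs i).ξ'0 _ (by omega))]
    simp only [cd]
    rw [anc_of_le μ k (by omega), stab (i + 1) _ _ (by omega) (by omega), GS,
      N6 μ k h2 _ _ _ (hs i), hb]

theorem main (μ k : ℕ → ℕ) (h1 : S1 μ k) (h2 : S2 k) {X : Type} [MetricSpace X]
    (q : ZZ μ k → X) (hq : Continuous q) (hsurj : Function.Surjective q)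
    (hrel : ∀ z w, q z = q w ↔ Rel μ k z.1 w.1) :
    ∃ (_ : CompactSpace X) (_ : ConnectedSpace X) (p : X), Indec (Remainder {x : X // x ≠ p}) ∧
      ¬ ∃ (M K : Set X) (a : X), IsCompact M ∧ p ∉ M ∧ IsCont K ∧ a ∈ K ∧ p ∈ K ∧
        (∀ L, IsCont L → L ⊆ K → p ∈ L → a ∈ L → L = K) ∧ M ∪ K = univ := by
  haveI : CompactSpace (ZZ μ k) := isCompact_iff_compactSpace.1 (ZZ_compact μ k)
  haveI hX : CompactSpace X := ⟨hsurj.range_eq ▸ isCompact_range hq⟩
  let p : X := q ⟨(cd μ k 0, 0), cd_mem μ k le_rfl (HH_pos _).le⟩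
  have hp : ∀ z, q z = p ↔ z.1.2 = 0 := fun z =>
    ⟨fun h => Rel_snd μ k ((hrel _ _).1 h), fun h => (hrel _ _).2 (Or.inr (Or.inl ⟨h, rfl⟩))⟩
  obtain ⟨ht, hht⟩ : ∃ ht : X → ℝ, ∀ z, ht (q z) = z.1.2 :=
    ⟨fun x => (Function.surjInv hsurj x).1.2, fun z =>
      Rel_snd μ k ((hrel _ _).1 (Function.surjInv_eq hsurj _))⟩
  have hc : Continuous ht := (hq.isClosedMap.isQuotientMap hq hsurj).continuous_iff.2 (by
    rw [show ht ∘ q = fun z => z.1.2 from funext hht]
    fun_prop)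
  have hp0 : ht p = 0 := hht _
  have hnn : ∀ x, 0 ≤ ht x := fun x => by
    obtain ⟨z, rfl⟩ := hsurj x
    rw [hht]; exact z.2.2
  have hpos : ∀ x, x ≠ p → 0 < ht x := fun x hx => by
    obtain ⟨z, rfl⟩ := hsurj x
    exact lt_of_le_of_ne (hnn _) fun h => hx ((hp z).2 ((hht z).symm.trans h.symm))
  have hnb : ∀ N ∈ 𝓝 p, ∃ δ > 0, ∀ x, ht x < δ → x ∈ N := by
    intro N hN
    have hcl : IsClosed (ht '' (interior N)ᶜ) :=
      (isOpen_interior.isClosed_compl.isCompact.image hc).isClosed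
    obtain ⟨δ, hδ, h⟩ := Metric.isOpen_iff.1 hcl.isOpen_compl 0 (by
      rintro ⟨x, hx, h⟩
      exact (hpos x fun h' => hx (h' ▸ mem_interior_iff_mem_nhds.2 hN)).ne' h)
    refine ⟨δ, hδ, fun x hx => interior_subset (by_contra fun h' => h (a := ht x) ?_ ⟨x, h', rfl⟩)⟩
    rw [mem_ball_zero_iff, Real.norm_eq_abs, abs_of_nonneg (hnn x)]
    exact hx
  have hlt : ∀ δ > 0, {x | ht x < δ} ∈ 𝓝 p := fun δ hδ =>
    (isOpen_lt hc continuous_const).mem_nhds (by rw [mem_setOf_eq, hp0]; exact hδ)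
  have hair : ∀ x, ∃ H, IsCont H ∧ p ∈ H ∧ x ∈ H ∧ (∀ y ∈ H, ht y ≤ ht x) ∧ InjOn ht H := by
    intro x
    obtain ⟨z, rfl⟩ := hsurj x
    haveI : ConnectedSpace (Icc 0 z.1.2) := isConnected_iff_connectedSpace.1 (isConnected_Icc z.2.2)
    let f : Icc 0 z.1.2 → ZZ μ k := fun s => ⟨(z.1.1, s.1), fun n =>
      ⟨(z.2.1 n).1, (z.2.1 n).2.1, s.2.2.trans (z.2.1 n).2.2⟩, s.2.1⟩
    have hf : Continuous (q ∘ f) := hq.comp (Continuous.subtype_mk (by fun_prop) _)
    refine ⟨range (q ∘ f), ⟨isCompact_range hf, isConnected_range hf⟩,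
      ⟨⟨0, le_rfl, z.2.2⟩, (hp _).2 rfl⟩, ⟨⟨z.1.2, z.2.2, le_rfl⟩, rfl⟩, ?_, ?_⟩
    · rintro _ ⟨s, rfl⟩
      rw [Function.comp_apply, hht, hht]
      exact s.2.2
    · rintro _ ⟨s, rfl⟩ _ ⟨s', rfl⟩ h
      rw [Function.comp_apply, Function.comp_apply, hht, hht] at h
      rw [show s = s' from Subtype.ext h]
  have htwo : ∀ δ > 0, ∃ a b, a ≠ b ∧ ht a = ht b ∧ 0 < ht a ∧ ht a < δ := by
    intro δ hδ
    have hs : 0 < min (δ / 2) (HH (lev μ k 1)) := lt_min (by linarith) (HH_pos _)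
    refine ⟨q ⟨(cd μ k 0, _), cd_mem μ k hs.le ((min_le_right _ _).trans
      (HH_le (by rw [lev_zero]; exact Nat.zero_le _)))⟩,
      q ⟨(cd μ k 1, _), cd_mem μ k hs.le (min_le_right _ _)⟩, fun h => ?_, by rw [hht, hht],
      by rw [hht]; exact hs, by rw [hht]; exact (min_le_left _ _).trans_lt (by linarith)⟩
    rcases (hrel _ _).1 h with h | h | ⟨l, hl, h, -⟩ | ⟨l, hl, -, h⟩
    · have := cd_inj μ k (congrArg Prod.fst h); omega
    · exact hs.ne' h.1
    · have := cd_inj μ k (congrArg Prod.fst h); omega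
    · have := cd_inj μ k (congrArg Prod.fst h); omega
  have h0 : p ∈ closure ({p}ᶜ : Set X) := by
    rw [mem_closure_iff_nhds]
    intro N hN
    obtain ⟨δ, hδ, h⟩ := hnb N hN
    obtain ⟨a, -, -, -, b, c⟩ := htwo δ hδ
    exact ⟨a, h a c, fun h' => b.ne' ((mem_singleton_iff.1 h').symm ▸ hp0)⟩
  have hpair : ∀ l (hl : 1 ≤ l), q ⟨(cd μ k l, φ μ k l), cd_mem μ k (φ_pos μ k l).le (φ_le μ k hl).1⟩ =
      q ⟨(cd μ k (l + 1), φ μ k l), cd_mem μ k (φ_pos μ k l).le (φ_le μ k hl).2⟩ :=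
    fun l hl => (hrel _ _).2 (Or.inr (Or.inr (Or.inl ⟨l, hl, rfl, rfl⟩)))
  refine ⟨hX, @ConnectedSpace.mk _ _ ⟨isPreconnected_of_forall p fun y _ => ?_⟩ ⟨p⟩, p,
    indec_of p h0 ?_ ?_, ?_⟩
  · obtain ⟨H, a, b, c, -⟩ := hair y
    exact ⟨H, subset_univ _, b, c, a.2.2⟩
  · intro F G N hF hG hN hcov hdis
    obtain ⟨δ, hδ, hδN⟩ := hnb N hN
    have hmem : ∀ (F : Set X) z (hz : z ∈ ZZ μ k), z ∈ Subtype.val '' (q ⁻¹' F) ↔ q ⟨z, hz⟩ ∈ F :=
      fun F z hz => ⟨by rintro ⟨w, hw, rfl⟩; exact hw, fun h => ⟨⟨z, hz⟩, h, rfl⟩⟩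
    have hcl : ∀ F : Set X, IsClosed F → IsClosed (Subtype.val '' (q ⁻¹' F)) := fun F hF =>
      ((hF.preimage hq).isCompact.image continuous_subtype_val).isClosed
    have hfin : ∀ F : Set X, IsClosed F →
        (∀ z ∈ ZZ μ k, 0 < z.2 → z.2 < δ → z ∈ Subtype.val '' (q ⁻¹' F)) → F ∈ 𝓝 p := by
      intro F hF h
      have h3 : {x | ht x < δ} ∩ {p}ᶜ ⊆ F := by
        rintro x ⟨a, b⟩
        obtain ⟨z, rfl⟩ := hsurj x
        exact (hmem F z.1 z.2).1 (h z.1 z.2 (hht z ▸ hpos _ b) (hht z ▸ a))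
      refine mem_of_superset (hlt δ hδ) fun x hx => ?_
      by_cases hxp : x = p
      · exact closure_minimal h3 hF ((isOpen_lt hc continuous_const).inter_closure ⟨hx, hxp ▸ h0⟩)
      · exact h3 ⟨hx, hxp⟩
    refine (ZA μ k h1 h2 (hcl F hF) (hcl G hG) hδ (fun z hz h => ?_) (fun z hz a b c d => ?_)
      fun l hl => ?_).imp (hfin F hF) (hfin G hG)
    · rw [mem_union, hmem F z hz, hmem G z hz]
      exact hcov (hδN _ (by rw [hht]; exact h))
    · rw [hmem _ z hz] at c d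
      exact a.ne' ((hp ⟨z, hz⟩).1 (hdis ⟨⟨c, d⟩, hδN _ (by rw [hht]; exact b)⟩))
    · rw [hmem F _ (cd_mem μ k (φ_pos μ k l).le (φ_le μ k hl).1),
        hmem F _ (cd_mem μ k (φ_pos μ k l).le (φ_le μ k hl).2), hpair l hl]
  · intro O O' hO hO' hd hpO hpO' hcO hcO'
    have hamb : ∀ O : Set X, IsOpen O → p ∉ O → p ∈ closure O → ∃ U, IsOpen U ∧
        (∀ z : ZZ μ k, z.1 ∈ U ↔ q z ∈ O) ∧ ∀ ε > 0, ∃ z ∈ ZZ μ k, z ∈ U ∧ 0 < z.2 ∧ z.2 < ε := by
      intro O hO hpO hcO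
      obtain ⟨U, hU, hUO⟩ := isOpen_induced_iff.1 (hO.preimage hq)
      have e : ∀ z : ZZ μ k, z.1 ∈ U ↔ q z ∈ O := fun z => by
        rw [← mem_preimage (f := q), ← hUO]; rfl
      refine ⟨U, hU, e, fun ε hε => ?_⟩
      obtain ⟨x, a, b⟩ := mem_closure_iff_nhds.1 hcO _ (hlt ε hε)
      obtain ⟨z, rfl⟩ := hsurj x
      exact ⟨z.1, z.2, (e z).2 b, hht z ▸ hpos _ fun h => hpO (h ▸ b), hht z ▸ a⟩
    obtain ⟨U, hU, e, hacc⟩ := hamb O hO hpO hcO
    obtain ⟨U', hU', e', hacc'⟩ := hamb O' hO' hpO' hcO'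
    obtain ⟨χ, c1, c2, c3⟩ := ZB μ k h1 h2 hU hU' hacc hacc'
    let A : Bool → Set (ZZ μ k) := fun b => {z | z.1.2 = 0 ∨ (z.1 ∉ U ∧ χ z.1 = b)}
    have hA : ∀ b, IsClosed (q '' A b) := by
      intro b
      apply hq.isClosedMap
      rw [← isOpen_compl_iff, isOpen_iff_mem_nhds]
      intro z hz
      have hz0 : z.1.2 ≠ 0 := fun h => hz (Or.inl h)
      have hn : ∀ᶠ w : ZZ μ k in 𝓝 z, w.1.2 ≠ 0 :=
        (continuous_snd.comp continuous_subtype_val).continuousAt.eventually_ne hz0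
      by_cases hzU : z.1 ∈ U
      · filter_upwards [hn, continuous_subtype_val.continuousAt.eventually (hU.mem_nhds hzU)]
          with w a b
        rintro (h | h)
        exacts [a h, h.1 b]
      · filter_upwards [hn, continuous_subtype_val.continuousAt.eventually
          (c2 z.1 z.2 (lt_of_le_of_ne z.2.2 hz0.symm) hzU)] with w a b
        rintro (h | h)
        exacts [a h, hz (Or.inr ⟨hzU, (b w.2).symm.trans h.2⟩)]
    have hclo : ∀ b, p ∈ closure (q '' A b ∩ O') := by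
      intro b
      rw [mem_closure_iff_nhds]
      intro N hN
      obtain ⟨δ, hδ, h⟩ := hnb N hN
      obtain ⟨z, hz, a1, -, a3, a4⟩ := c3 b δ hδ
      have a5 := (e' ⟨z, hz⟩).1 a1
      exact ⟨q ⟨z, hz⟩, h _ (by rw [hht]; exact a3), ⟨⟨z, hz⟩, Or.inr ⟨fun h' =>
        disjoint_left.1 hd ((e ⟨z, hz⟩).1 h') a5, a4⟩, rfl⟩, a5⟩
    refine ⟨_, _, hA true, hA false, fun x hx => ?_, ?_, hclo true, hclo false⟩
    · obtain ⟨z, rfl⟩ := hsurj x
      have : z.1 ∉ U := fun h => hx ((e z).1 h)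
      cases h : χ z.1
      exacts [Or.inr ⟨z, Or.inr ⟨this, h⟩, rfl⟩, Or.inl ⟨z, Or.inr ⟨this, h⟩, rfl⟩]
    · rintro _ ⟨⟨z, hz | hz, rfl⟩, ⟨w, hw | hw, h⟩⟩
      · exact (hp z).2 hz
      · exact (hp z).2 hz
      · exact h ▸ (hp w).2 hw
      · have a := hz.2
        have b := hw.2
        rcases (hrel _ _).1 h with h | h | ⟨l, hl, h, h'⟩ | ⟨l, hl, h, h'⟩
        · rw [h, a] at b; cases b
        · exact (hp z).2 h.2
        · rw [h, c1 l hl, ← h', a] at b; cases b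
        · rw [h, c1 l hl, ← h', b] at a; cases a
  · rintro ⟨M, K, a, hM, hpM, hK, haK, hpK, hirr, hMK⟩
    obtain ⟨δ, hδ, hδM⟩ := hnb _ (hM.isClosed.isOpen_compl.mem_nhds hpM)
    have hsub : ∀ x, ht x ≤ δ / 2 → x ∈ K := fun x hx =>
      ((hMK.symm ▸ mem_univ x : x ∈ M ∪ K)).resolve_left (hδM x (by linarith))
    have key : ∃ H, InjOn ht H ∧ ∀ x, ht x < δ / 2 → x ∈ H := by
      by_cases h : ht a ≤ δ / 2
      · obtain ⟨H, b1, b2, b3, b4, b5⟩ := hair a
        refine ⟨H, b5, fun x hx => ?_⟩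
        rw [hirr H b1 (fun y hy => hsub y ((b4 y hy).trans h)) b2 b3]
        exact hsub x hx.le
      · have hcl : IsClosed {x | δ / 2 ≤ ht x} := isClosed_le continuous_const hc
        have hH : IsCompact (K ∩ {x | δ / 2 ≤ ht x}) := hK.1.inter_right hcl
        have ha : a ∈ K ∩ {x | δ / 2 ≤ ht x} := ⟨haK, (not_le.1 h).le⟩
        have hC : closure (connectedComponentIn (K ∩ {x | δ / 2 ≤ ht x}) a) ⊆
            K ∩ {x | δ / 2 ≤ ht x} := closure_minimal (connectedComponentIn_subset _ _) hH.isClosed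
        obtain ⟨z, hz, hz'⟩ : ∃ z ∈ connectedComponentIn (K ∩ {x | δ / 2 ≤ ht x}) a,
            ht z ≤ δ / 2 := by
          by_contra hcon
          push Not at hcon
          obtain ⟨E, e1, e2, e3, e4, e5⟩ := sep (T := {x | ht x ≤ δ / 2}) hH
            (isClosed_le hc continuous_const) ha
            (disjoint_left.2 fun z hz hz' => absurd hz' (not_le.2 (hcon z hz)))
          have : K \ E = (K ∩ {x | δ / 2 ≤ ht x}) \ E ∪ {x | ht x ≤ δ / 2} := by
            ext x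
            constructor
            · intro hx
              rcases le_total (δ / 2) (ht x) with h' | h'
              exacts [Or.inl ⟨⟨hx.1, h'⟩, hx.2⟩, Or.inr h']
            · rintro (hx | hx)
              exacts [⟨hx.1.1, hx.2⟩, ⟨hsub x hx, disjoint_right.1 e5 hx⟩]
          have := sub_of_clopen (H := K) e2 (this ▸ e3.union (isClosed_le hc continuous_const))
            hK.2.2 subset_rfl haK e4 hpK
          exact disjoint_left.1 e5 this (by rw [mem_setOf_eq, hp0]; linarith)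
        obtain ⟨H, b1, b2, b3, b4, b5⟩ := hair z
        refine ⟨H, b5, fun x hx => ?_⟩
        have := hirr (closure (connectedComponentIn (K ∩ {x | δ / 2 ≤ ht x}) a) ∪ H)
          ⟨isClosed_closure.isCompact.union b1.1,
            (isConnected_connectedComponentIn_iff.2 ha).closure.union ⟨z, subset_closure hz, b3⟩
              b1.2⟩
          (union_subset (hC.trans inter_subset_left) fun y hy => hsub y ((b4 y hy).trans hz'))
          (Or.inr b2) (Or.inl (subset_closure (mem_connectedComponentIn ha)))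
        exact ((this.symm ▸ hsub x hx.le : x ∈ _ ∪ H)).resolve_left fun h' =>
          absurd (hC h').2 (not_le.2 hx)
    obtain ⟨H, b1, b2⟩ := key
    obtain ⟨x, y, c1, c2, -, c4⟩ := htwo (δ / 2) (by linarith)
    exact c1 (b1 (b2 x c4) (b2 y (c2 ▸ c4)) c2)

/-- Q1 holds, and Q2 fails. -/
theorem result :
    (∀ (X : Type u) [MetricSpace X] [CompactSpace X] [ConnectedSpace X] (p : X),
      Indec (Remainder {x : X // x ≠ p}) → Cik p) ∧
    ∃ (X : Type) (_ : MetricSpace X) (_ : CompactSpace X) (_ : ConnectedSpace X) (p : X),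
      Indec (Remainder {x : X // x ≠ p}) ∧
      ¬ ∃ (M K : Set X) (q : X), IsCompact M ∧ p ∉ M ∧ IsCont K ∧ q ∈ K ∧ p ∈ K ∧
        (∀ L, IsCont L → L ⊆ K → p ∈ L → q ∈ L → L = K) ∧ M ∪ K = univ := by
  refine ⟨fun X _ _ _ p h => q1 X p h, ?_⟩
  obtain ⟨μ, k, h1, h2⟩ := seq_ex
  let S : Setoid (ZZ μ k) := ⟨fun z w => Rel μ k z.1 w.1, ⟨fun _ => (Rel_equiv μ k).refl _,
    fun h => (Rel_equiv μ k).symm h, fun h h' => (Rel_equiv μ k).trans h h'⟩⟩
  haveI : CompactSpace (ZZ μ k) := isCompact_iff_compactSpace.1 (ZZ_compact μ k)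
  haveI := quot_metrizable S ((Rel_closed μ k).preimage
    (continuous_subtype_val.prodMap continuous_subtype_val))
  letI : MetricSpace (Quotient S) := TopologicalSpace.metrizableSpaceMetric _
  exact ⟨Quotient S, inferInstance, main μ k h1 h2 (Quotient.mk S) continuous_quotient_mk'
    Quotient.mk_surjective fun z w => Quotient.eq⟩

end Pool.Agent.Results.MP_19acf5_gt.Full
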